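import Mathlib

/-!
Golomb rulers in the natural numbers, partitions into rulers with `J` marks, and a
round-robin lemma.
-/

namespace Golomb15

/-- A finite set of natural numbers is a Golomb ruler (written additively). -/
def GolN (A : Finset ℕ) : Prop :=
  ∀ a ∈ A, ∀ b ∈ A, ∀ c ∈ A, ∀ d ∈ A, a ≠ b → a + d = c + b → a = c ∧ b = d

/-- `X` is a disjoint union of Golomb rulers with `J` marks. -/
def Part (J : ℕ) (X : Finset ℕ) : Prop :=
  ∃ F : Finset (Finset ℕ), (∀ B ∈ F, B.card = J ∧ GolN B) ∧
    (∀ B ∈ F, ∀ C ∈ F, B ≠ C → Disjoint B C) ∧ F.biUnion id = X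

theorem GolN.mono {A B : Finset ℕ} (h : GolN B) (hAB : A ⊆ B) : GolN A :=
  fun a ha b hb c hc d hd => h a (hAB ha) b (hAB hb) c (hAB hc) d (hAB hd)

theorem Part.empty (J : ℕ) : Part J ∅ :=
  ⟨∅, by simp, by simp, by simp⟩

theorem Part.single {J : ℕ} {X : Finset ℕ} (h1 : X.card = J) (h2 : GolN X) : Part J X :=
  ⟨{X}, by simp [h1, h2], by simp, by simp⟩

theorem Part.union {J : ℕ} {X Y : Finset ℕ} (hX : Part J X) (hY : Part J Y)
    (hd : Disjoint X Y) : Part J (X ∪ Y) := by
  classical
  obtain ⟨F, hF1, hF2, hF3⟩ := hX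
  obtain ⟨G, hG1, hG2, hG3⟩ := hY
  have hFX : ∀ B ∈ F, B ⊆ X := by
    intro B hB x hx
    rw [← hF3]
    exact Finset.mem_biUnion.2 ⟨B, hB, hx⟩
  have hGY : ∀ B ∈ G, B ⊆ Y := by
    intro B hB x hx
    rw [← hG3]
    exact Finset.mem_biUnion.2 ⟨B, hB, hx⟩
  refine ⟨F ∪ G, ?_, ?_, ?_⟩
  · intro B hB
    rcases Finset.mem_union.1 hB with h | h
    · exact hF1 B h
    · exact hG1 B h
  · intro B hB C hC hBC
    rcases Finset.mem_union.1 hB with h | h <;> rcases Finset.mem_union.1 hC with h' | h'
    · exact hF2 B h C h' hBC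
    · exact Finset.disjoint_of_subset_left (hFX B h)
        (Finset.disjoint_of_subset_right (hGY C h') hd)
    · exact Finset.disjoint_of_subset_left (hGY B h)
        (Finset.disjoint_of_subset_right (hFX C h') hd.symm)
    · exact hG2 B h C h' hBC
  · rw [Finset.union_biUnion, hF3, hG3]

theorem Part.biUnion {ι : Type*} [DecidableEq ι] {J : ℕ} (s : Finset ι) (X : ι → Finset ℕ)
    (hX : ∀ i ∈ s, Part J (X i)) (hd : ∀ i ∈ s, ∀ j ∈ s, i ≠ j → Disjoint (X i) (X j)) :
    Part J (s.biUnion X) := by
  classical
  induction s using Finset.induction_on with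
  | empty => simpa using Part.empty J
  | insert a s ha ih =>
    rw [Finset.biUnion_insert]
    refine Part.union (hX a (Finset.mem_insert_self _ _)) (ih ?_ ?_) ?_
    · intro i hi
      exact hX i (Finset.mem_insert_of_mem hi)
    · intro i hi j hj hij
      exact hd i (Finset.mem_insert_of_mem hi) j (Finset.mem_insert_of_mem hj) hij
    · rw [Finset.disjoint_biUnion_right]
      intro i hi
      refine hd a (Finset.mem_insert_self _ _) i (Finset.mem_insert_of_mem hi) ?_
      rintro rfl
      exact ha hi

theorem GolN.shift {A : Finset ℕ} (h : GolN A) (t : ℕ) : GolN (A.image (· + t)) := by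
  intro a ha b hb c hc d hd hab he
  simp only [Finset.mem_image] at ha hb hc hd
  obtain ⟨a', ha', rfl⟩ := ha
  obtain ⟨b', hb', rfl⟩ := hb
  obtain ⟨c', hc', rfl⟩ := hc
  obtain ⟨d', hd', rfl⟩ := hd
  obtain ⟨h1, h2⟩ := h a' ha' b' hb' c' hc' d' hd' (by omega) (by omega)
  exact ⟨by omega, by omega⟩

theorem Part.shift {J : ℕ} {X : Finset ℕ} (h : Part J X) (t : ℕ) :
    Part J (X.image (· + t)) := by
  classical
  obtain ⟨F, hF1, hF2, hF3⟩ := h
  have hinj : Function.Injective (fun x : ℕ => x + t) := fun a b h => by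
    simp only at h
    omega
  refine ⟨F.image (fun B => B.image (· + t)), ?_, ?_, ?_⟩
  · intro B hB
    obtain ⟨B', hB', rfl⟩ := Finset.mem_image.1 hB
    exact ⟨by rw [Finset.card_image_of_injective _ hinj]; exact (hF1 B' hB').1,
      (hF1 B' hB').2.shift t⟩
  · intro B hB C hC hBC
    obtain ⟨B', hB', rfl⟩ := Finset.mem_image.1 hB
    obtain ⟨C', hC', rfl⟩ := Finset.mem_image.1 hC
    have : B' ≠ C' := by
      rintro rfl
      exact hBC rfl
    exact (Finset.disjoint_image hinj).2 (hF2 B' hB' C' hC' this)
  · rw [← hF3, Finset.image_biUnion]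
    simp only [Finset.biUnion_image]
    rfl

/-- The round-robin lemma. -/
theorem roundRobin {α β : Type*} [DecidableEq α] [DecidableEq β] (J : ℕ) (f : α → β) :
    ∀ (q : ℕ) (X : Finset α), X.card = J * q →
      (∀ y, (X.filter (fun x => f x = y)).card ≤ q) →
      ∃ F : Finset (Finset α), (∀ B ∈ F, B.card = J ∧ Set.InjOn f (B : Set α)) ∧
        (∀ B ∈ F, ∀ C ∈ F, B ≠ C → Disjoint B C) ∧ F.biUnion id = X := by
  classical
  intro q
  induction q with
  | zero =>
    intro X hX _
    have : X = ∅ := by
      rw [← Finset.card_eq_zero]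
      simpa using hX
    exact ⟨∅, by simp, by simp, by simp [this]⟩
  | succ q ih =>
    intro X hX hf
    set Y := X.image f with hY
    have hsum : X.card = ∑ y ∈ Y, (X.filter (fun x => f x = y)).card :=
      Finset.card_eq_sum_card_fiberwise (fun x hx => Finset.mem_image_of_mem f hx)
    have hJY : J ≤ Y.card := by
      have h1 : J * (q + 1) ≤ Y.card * (q + 1) := by
        rw [← hX, hsum]
        calc ∑ y ∈ Y, (X.filter (fun x => f x = y)).card ≤ ∑ _y ∈ Y, (q + 1) :=
              Finset.sum_le_sum (fun y _ => hf y)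
          _ = Y.card * (q + 1) := by simp
      exact Nat.le_of_mul_le_mul_right h1 (Nat.succ_pos q)
    set Z := Y.filter (fun y => (X.filter (fun x => f x = y)).card = q + 1) with hZ
    have hZJ : Z.card ≤ J := by
      have h1 : Z.card * (q + 1) ≤ J * (q + 1) := by
        rw [← hX, hsum]
        calc Z.card * (q + 1) = ∑ _y ∈ Z, (q + 1) := by simp
          _ = ∑ y ∈ Z, (X.filter (fun x => f x = y)).card := by
              refine Finset.sum_congr rfl ?_
              intro y hy
              exact ((Finset.mem_filter.1 hy).2).symm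
          _ ≤ ∑ y ∈ Y, (X.filter (fun x => f x = y)).card :=
              Finset.sum_le_sum_of_subset (Finset.filter_subset _ _)
      exact Nat.le_of_mul_le_mul_right h1 (Nat.succ_pos q)
    obtain ⟨W, hZW, hWY, hWJ⟩ :=
      Finset.exists_subsuperset_card_eq (Finset.filter_subset _ _ : Z ⊆ Y) hZJ hJY
    have hrep : ∀ y : {y // y ∈ W}, ∃ x, x ∈ X ∧ f x = y.1 := by
      intro y
      obtain ⟨x, hx, hxy⟩ := Finset.mem_image.1 (hWY y.2)
      exact ⟨x, hx, hxy⟩
    choose r hrX hrf using hrep
    have hrinj : Function.Injective r := by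
      intro y z hyz
      apply Subtype.ext
      rw [← hrf y, ← hrf z, hyz]
    set B : Finset α := Finset.univ.image r with hB
    have hBcard : B.card = J := by
      rw [hB, Finset.card_image_of_injective _ hrinj, Finset.card_univ, Fintype.card_coe, hWJ]
    have hBX : B ⊆ X := by
      intro x hx
      obtain ⟨y, _, rfl⟩ := Finset.mem_image.1 hx
      exact hrX y
    have hBinj : Set.InjOn f (B : Set α) := by
      intro x hx x' hx' hxx
      obtain ⟨y, _, rfl⟩ := Finset.mem_image.1 hx
      obtain ⟨y', _, rfl⟩ := Finset.mem_image.1 hx'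
      rw [hrf, hrf] at hxx
      rw [Subtype.ext hxx]
    have hX' : (X \ B).card = J * q := by
      rw [Finset.card_sdiff_of_subset hBX, hX, hBcard, Nat.mul_succ]
      omega
    have hf' : ∀ y, ((X \ B).filter (fun x => f x = y)).card ≤ q := by
      intro y
      by_cases hyW : y ∈ W
      · have hlt : ((X \ B).filter (fun x => f x = y)).card <
            (X.filter (fun x => f x = y)).card := by
          apply Finset.card_lt_card
          rw [Finset.ssubset_iff_of_subset
            (Finset.filter_subset_filter _ Finset.sdiff_subset)]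
          refine ⟨r ⟨y, hyW⟩, Finset.mem_filter.2 ⟨hrX _, hrf _⟩, ?_⟩
          intro h
          have := (Finset.mem_filter.1 h).1
          rw [Finset.mem_sdiff] at this
          exact this.2 (Finset.mem_image_of_mem r (Finset.mem_univ _))
        have := hf y
        omega
      · have hle : ((X \ B).filter (fun x => f x = y)).card ≤
            (X.filter (fun x => f x = y)).card :=
          Finset.card_le_card (Finset.filter_subset_filter _ Finset.sdiff_subset)
        have h2 : (X.filter (fun x => f x = y)).card ≠ q + 1 := by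
          intro h
          apply hyW
          apply hZW
          rw [Finset.mem_filter]
          refine ⟨?_, h⟩
          rw [hY, Finset.mem_image]
          have hpos : 0 < (X.filter (fun x => f x = y)).card := by omega
          obtain ⟨x, hx⟩ := Finset.card_pos.1 hpos
          rw [Finset.mem_filter] at hx
          exact ⟨x, hx.1, hx.2⟩
        have := hf y
        omega
    obtain ⟨F, hF1, hF2, hF3⟩ := ih (X \ B) hX' hf'
    have hsub : ∀ C ∈ F, C ⊆ X \ B := by
      intro C hC x hx
      rw [← hF3]
      exact Finset.mem_biUnion.2 ⟨C, hC, hx⟩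
    refine ⟨insert B F, ?_, ?_, ?_⟩
    · intro C hC
      rcases Finset.mem_insert.1 hC with rfl | h
      · exact ⟨hBcard, hBinj⟩
      · exact hF1 C h
    · intro C hC D hD hCD
      rcases Finset.mem_insert.1 hC with h | h <;> rcases Finset.mem_insert.1 hD with h' | h'
      · exact absurd (h.trans h'.symm) hCD
      · rw [h]
        exact Finset.disjoint_of_subset_right (hsub D h') Finset.disjoint_sdiff
      · rw [h']
        exact (Finset.disjoint_of_subset_right (hsub C h) Finset.disjoint_sdiff).symm
      · exact hF2 C h D h' hCD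
    · rw [Finset.biUnion_insert, hF3]
      exact Finset.union_sdiff_of_subset hBX

/-- Round robin for rulers: if small pieces on which `f` is injective are Golomb rulers. -/
theorem Part.of_roundRobin {β : Type*} [DecidableEq β] {J q : ℕ} (f : ℕ → β) (X : Finset ℕ)
    (hX : X.card = J * q) (hf : ∀ y, (X.filter (fun x => f x = y)).card ≤ q)
    (hG : ∀ B ⊆ X, Set.InjOn f (B : Set ℕ) → GolN B) : Part J X := by
  obtain ⟨F, hF1, hF2, hF3⟩ := roundRobin J f q X hX hf
  refine ⟨F, ?_, hF2, hF3⟩
  intro B hB
  refine ⟨(hF1 B hB).1, hG B ?_ (hF1 B hB).2⟩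
  intro x hx
  rw [← hF3]
  exact Finset.mem_biUnion.2 ⟨B, hB, hx⟩

end Golomb15
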