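import Pool.Agent.Golomb15.Basic

/-!
Cutting a long interval into blocks.
-/

namespace Golomb15

/-- The partition property for the interval `[0, n)`. -/
def QP (J n : ℕ) : Prop := ∀ D : Finset ℕ, D.card ≤ J → D ⊆ Finset.range n →
  J ∣ n - D.card → Part J (Finset.range n \ D)

theorem exists_cut (D : Finset ℕ) (M n : ℕ) (hM : 0 < M)
    (hn : M ≤ (Finset.range n \ D).card) : ∃ t ≤ n, (Finset.range t \ D).card = M := by
  classical
  have hex : ∃ t, M ≤ (Finset.range t \ D).card := ⟨n, hn⟩
  set t := Nat.find hex with ht
  have h1 : M ≤ (Finset.range t \ D).card := Nat.find_spec hex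
  have h2 : t ≤ n := Nat.find_min' hex hn
  refine ⟨t, h2, ?_⟩
  have ht0 : t ≠ 0 := by
    intro h0
    rw [h0] at h1
    simp at h1
    omega
  obtain ⟨s, hs⟩ := Nat.exists_eq_succ_of_ne_zero ht0
  have h3 : ¬ M ≤ (Finset.range s \ D).card := Nat.find_min hex (by omega)
  have h4 : (Finset.range t \ D).card ≤ (Finset.range s \ D).card + 1 := by
    rw [hs, Nat.succ_eq_add_one, Finset.range_add_one]
    calc ((insert s (Finset.range s)) \ D).card ≤ (insert s (Finset.range s \ D)).card := by
          apply Finset.card_le_card
          intro x hx
          rw [Finset.mem_sdiff, Finset.mem_insert] at hx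
          rw [Finset.mem_insert, Finset.mem_sdiff]
          rcases hx.1 with h | h
          · exact Or.inl h
          · exact Or.inr ⟨h, hx.2⟩
      _ ≤ _ := Finset.card_insert_le _ _
  omega

theorem QP.of_blocks (J N₀ : ℕ) (hJ : 1 ≤ J)
    (h : ∀ n, N₀ ≤ n → n ≤ 2 * N₀ + 2 * J → QP J n) : ∀ n, N₀ ≤ n → QP J n := by
  classical
  intro n
  induction n using Nat.strong_induction_on with
  | _ n ih =>
    intro hn
    by_cases hsmall : n ≤ 2 * N₀ + 2 * J
    · exact h n hn hsmall
    · rw [not_le] at hsmall
      intro D hD hDn hdvd
      set L := N₀ / J + 1 with hL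
      have hLJ1 : N₀ < L * J := by
        rw [hL]
        have := Nat.lt_div_mul_add (show 0 < J by omega) (a := N₀)
        nlinarith
      have hLJ2 : L * J ≤ N₀ + J := by
        rw [hL]
        have := Nat.div_mul_le_self N₀ J
        nlinarith
      have hcardG : (Finset.range n \ D).card = n - D.card := by
        rw [Finset.card_sdiff_of_subset hDn, Finset.card_range]
      obtain ⟨t, htn, ht⟩ := exists_cut D (L * J) n (by omega) (by rw [hcardG]; omega)
      set D₁ := D ∩ Finset.range t with hD₁
      have hD₁J : D₁.card ≤ J := (Finset.card_le_card Finset.inter_subset_left).trans hD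
      have hD₁t : D₁ ⊆ Finset.range t := Finset.inter_subset_right
      have heq1 : Finset.range t \ D₁ = Finset.range t \ D := by
        ext x
        simp only [hD₁, Finset.mem_sdiff, Finset.mem_inter, Finset.mem_range]
        tauto
      have hcard1 : t - D₁.card = L * J := by
        rw [← ht, ← heq1, Finset.card_sdiff_of_subset hD₁t, Finset.card_range]
      have hD₁le : D₁.card ≤ t := by
        have := Finset.card_le_card hD₁t
        rwa [Finset.card_range] at this
      have hPart1 : Part J (Finset.range t \ D) := by
        rw [← heq1]
        exact h t (by omega) (by omega) D₁ hD₁J hD₁t (by rw [hcard1]; exact dvd_mul_left _ _)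
      set n' := n - t with hn'
      set D₂ := (Finset.range n').filter (fun x => x + t ∈ D) with hD₂
      have hD₂J : D₂.card ≤ J := by
        refine le_trans ?_ hD
        refine Finset.card_le_card_of_injOn (fun x => x + t) ?_ ?_
        · intro x hx
          exact (Finset.mem_filter.1 hx).2
        · intro x _ y _ hxy
          simp only at hxy
          omega
      have hD₂n : D₂ ⊆ Finset.range n' := Finset.filter_subset _ _
      have hinj : Function.Injective (fun x : ℕ => x + t) := fun x y hxy => by
        simp only at hxy
        omega
      have heq2 : Finset.range n \ D =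
          (Finset.range t \ D) ∪ (Finset.range n' \ D₂).image (· + t) := by
        ext x
        simp only [Finset.mem_union, Finset.mem_sdiff, Finset.mem_range, Finset.mem_image, hD₂,
          Finset.mem_filter, not_and]
        constructor
        · rintro ⟨h1, h2⟩
          by_cases hxt : x < t
          · exact Or.inl ⟨hxt, h2⟩
          · right
            refine ⟨x - t, ⟨by omega, ?_⟩, by omega⟩
            intro _
            have : x - t + t = x := by omega
            rwa [this]
        · rintro (⟨h1, h2⟩ | ⟨y, ⟨h1, h2⟩, rfl⟩)
          · exact ⟨by omega, h2⟩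
          · exact ⟨by omega, h2 h1⟩
      have hdisj : Disjoint (Finset.range t \ D) ((Finset.range n' \ D₂).image (· + t)) := by
        rw [Finset.disjoint_left]
        intro x hx hx'
        rw [Finset.mem_sdiff, Finset.mem_range] at hx
        obtain ⟨y, _, rfl⟩ := Finset.mem_image.1 hx'
        omega
      have hcard2 : n - D.card = L * J + (n' - D₂.card) := by
        rw [← hcardG, heq2, Finset.card_union_of_disjoint hdisj, ht,
          Finset.card_image_of_injective _ hinj, Finset.card_sdiff_of_subset hD₂n,
          Finset.card_range]
      have hdvd2 : J ∣ n' - D₂.card := by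
        rw [hcard2] at hdvd
        exact (Nat.dvd_add_right (dvd_mul_left J L)).1 hdvd
      have hPart2 : Part J (Finset.range n' \ D₂) :=
        ih n' (by omega) (by omega) D₂ hD₂J hD₂n hdvd2
      rw [heq2]
      exact Part.union hPart1 (hPart2.shift t) hdisj

end Golomb15
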