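import Pool.Agent.Golomb15.Plane

/-!
Counting lemmas in the Ruzsa plane.
-/

namespace Golomb15

variable {p : ℕ} [Fact p.Prime]

open Classical in
/-- The point with given row and column (junk value if they agree). -/
noncomputable def pt (g : (ZMod p)ˣ) (a a' c k : ZMod p) : ℕ :=
  if h : ∃ N < md p, row g a N = c ∧ row g a' N = k then Classical.choose h else 0

theorem pt_spec {g : (ZMod p)ˣ} (hg : orderOf g = p - 1) {a a' : ZMod p} (haa : a ≠ a')
    {c k : ZMod p} (hck : c ≠ k) :
    pt g a a' c k < md p ∧ row g a (pt g a a' c k) = c ∧ row g a' (pt g a a' c k) = k := by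
  have h := exists_point hg haa hck
  unfold pt
  rw [dif_pos h]
  exact Classical.choose_spec h

theorem card_row_md {g : (ZMod p)ˣ} (hg : orderOf g = p - 1) (a c : ZMod p) :
    ((Finset.range (md p)).filter (fun N => row g a N = c)).card = p - 1 := by
  have hp : p.Prime := Fact.out
  have : Nontrivial (ZMod p) := inferInstance
  obtain ⟨a', ha'⟩ := exists_ne a
  have haa : a ≠ a' := ha'.symm
  have hcard : ((Finset.univ : Finset (ZMod p)).erase c).card = p - 1 := by
    rw [Finset.card_erase_of_mem (Finset.mem_univ _), Finset.card_univ, ZMod.card]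
  rw [← hcard]
  refine Finset.card_bij (fun N _ => row g a' N) ?_ ?_ ?_
  · intro N hN
    rw [Finset.mem_filter] at hN
    rw [Finset.mem_erase]
    refine ⟨?_, Finset.mem_univ _⟩
    rw [← hN.2]
    exact (row_ne haa N).symm
  · intro M hM N hN h
    rw [Finset.mem_filter, Finset.mem_range] at hM hN
    have := point_unique hg haa (hM.2.trans hN.2.symm) h
    rwa [Nat.mod_eq_of_lt hM.1, Nat.mod_eq_of_lt hN.1] at this
  · intro k hk
    rw [Finset.mem_erase] at hk
    obtain ⟨N, hN, h1, h2⟩ := exists_point hg haa hk.1.symm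
    exact ⟨N, Finset.mem_filter.2 ⟨Finset.mem_range.2 hN, h1⟩, h2⟩

theorem card_row_ge {g : (ZMod p)ˣ} (hg : orderOf g = p - 1) (a c : ZMod p) (j n : ℕ)
    (hn : j * md p ≤ n) :
    j * (p - 1) ≤ ((Finset.range n).filter (fun N => row g a N = c)).card := by
  rw [← card_row_md hg a c]
  have h1 : j * ((Finset.range (md p)).filter (fun N => row g a N = c)).card =
      ((Finset.range j) ×ˢ ((Finset.range (md p)).filter (fun N => row g a N = c))).card := by
    rw [Finset.card_product, Finset.card_range]
  rw [h1]
  have hm := md_pos (p := p)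
  refine Finset.card_le_card_of_injOn (fun x => x.1 * md p + x.2) ?_ ?_
  · rintro ⟨i, N⟩ hx
    simp only [Finset.coe_product, Set.mem_prod, Finset.mem_coe, Finset.mem_range,
      Finset.mem_filter] at hx
    obtain ⟨hi, hN, hr⟩ := hx
    simp only [Finset.coe_filter, Finset.mem_range, Set.mem_ofPred_eq]
    constructor
    · calc i * md p + N < i * md p + md p := by omega
        _ = (i + 1) * md p := by ring
        _ ≤ j * md p := Nat.mul_le_mul_right _ hi
        _ ≤ n := hn
    · rw [← row_mod hg, add_comm, Nat.add_mul_mod_self_right, row_mod hg, hr]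
  · rintro ⟨i, N⟩ hx ⟨i', N'⟩ hx' h
    simp only [Finset.coe_product, Set.mem_prod, Finset.mem_coe, Finset.mem_range,
      Finset.mem_filter] at hx hx'
    simp only at h
    have e1 : (i * md p + N) / md p = i := by
      rw [add_comm, Nat.add_mul_div_right _ _ hm, Nat.div_eq_of_lt hx.2.1, zero_add]
    have e2 : (i' * md p + N') / md p = i' := by
      rw [add_comm, Nat.add_mul_div_right _ _ hm, Nat.div_eq_of_lt hx'.2.1, zero_add]
    have hii : i = i' := by rw [← e1, ← e2, h]
    subst hii
    have : N = N' := by omega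
    rw [this]

theorem card_fibre_le (X : Finset ℕ) (n k : ℕ) (hX : X ⊆ Finset.range n)
    (hn : n ≤ k * md p) (r : ℕ) : (X.filter (fun N => N % md p = r)).card ≤ k := by
  have hm := md_pos (p := p)
  have h1 : k = (Finset.range k).card := (Finset.card_range k).symm
  conv_rhs => rw [h1]
  refine Finset.card_le_card_of_injOn (fun N => N / md p) ?_ ?_
  · intro N hN
    rw [Finset.mem_coe, Finset.mem_filter] at hN
    have := Finset.mem_range.1 (hX hN.1)
    rw [Finset.mem_coe, Finset.mem_range]
    exact Nat.div_lt_of_lt_mul (by rw [mul_comm]; omega)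
  · intro M hM N hN h
    rw [Finset.mem_coe, Finset.mem_filter] at hM hN
    simp only at h
    rw [← Nat.div_add_mod M (md p), ← Nat.div_add_mod N (md p), h, hM.2, hN.2]

end Golomb15
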