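import Mathlib

/-!
Definitions for the statements on disjoint Golomb rulers.
-/

namespace Golomb15

/-- A Golomb ruler: a finite set of integers whose differences `a - a'` (`a ≠ a'`) are pairwise
distinct. -/
def IsGolomb (A : Finset ℤ) : Prop :=
  ∀ a ∈ A, ∀ a' ∈ A, ∀ b ∈ A, ∀ b' ∈ A, a ≠ a' → a - a' = b - b' → a = b ∧ a' = b'

/-- The set `X` is the union of `I` pairwise disjoint Golomb rulers with `J` marks each. -/
def Splits (I J : ℕ) (X : Finset ℤ) : Prop :=
  ∃ F : Finset (Finset ℤ), F.card = I ∧ (∀ A ∈ F, A.card = J ∧ IsGolomb A) ∧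
    (∀ A ∈ F, ∀ B ∈ F, A ≠ B → Disjoint A B) ∧ F.biUnion id = X

/-- The set `F` of sets of integers is an `(I, J, n)`-DGR: it has `I` members, they are pairwise
disjoint, and each of them is a Golomb ruler with `J` marks contained in `{1, ..., n}`. -/
structure IsDGR (I J n : ℕ) (F : Finset (Finset ℤ)) : Prop where
  card : F.card = I
  ruler : ∀ A ∈ F, A.card = J ∧ IsGolomb A ∧ A ⊆ Finset.Icc 1 (n : ℤ)
  disj : ∀ A ∈ F, ∀ B ∈ F, A ≠ B → Disjoint A B

/-- The least `n` for which there is an `(I, J, n)`-DGR. -/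
noncomputable def H (I J : ℕ) : ℕ := sInf {n | ∃ F, IsDGR I J n F}

/-- The least `i` such that `H I J = I J` for all `I ≥ i`. -/
noncomputable def iota (J : ℕ) : ℕ := sInf {i | ∀ I, i ≤ I → H I J = I * J}

end Golomb15
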