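import Mathlib

/-!
Two elementary combinatorial lemmas: a listing of units row by row, and greedy colouring.
-/

namespace Golomb15

/-- List `u c` units for each `c`, row by row. -/
theorem exists_listing {ι : Type*} [DecidableEq ι] [Inhabited ι] (u : ι → ℕ) (B : ℕ)
    (hu : ∀ c, u c ≤ B) (s : Finset ι) :
    ∃ ρ : ℕ → ι, (∀ t < ∑ c ∈ s, u c, ρ t ∈ s) ∧
      (∀ t t', t' < ∑ c ∈ s, u c → ρ t = ρ t' → t ≤ t' → t' < t + B) ∧
      (∀ c ∈ s, ((Finset.range (∑ c ∈ s, u c)).filter (fun t => ρ t = c)).card = u c) := by
  classical
  induction s using Finset.induction_on with
  | empty => exact ⟨fun _ => default, by simp, by simp, by simp⟩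
  | insert a s ha ih =>
    obtain ⟨ρ, h1, h2, h3⟩ := ih
    set S := ∑ c ∈ s, u c with hS
    have hsum : ∑ c ∈ insert a s, u c = S + u a := by
      rw [Finset.sum_insert ha, add_comm]
    refine ⟨fun t => if t < S then ρ t else a, ?_, ?_, ?_⟩
    · intro t ht
      by_cases h : t < S
      · simp only [h, if_true]
        exact Finset.mem_insert_of_mem (h1 t h)
      · simp only [h, if_false]
        exact Finset.mem_insert_self _ _
    · intro t t' ht' he hle
      rw [hsum] at ht'
      simp only at he
      by_cases h' : t' < S
      · have h : t < S := by omega
        simp only [h, h', if_true] at he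
        exact h2 t t' h' he hle
      · by_cases h : t < S
        · simp only [h, h', if_true, if_false] at he
          exfalso
          apply ha
          rw [← he]
          exact h1 t h
        · have := hu a
          omega
    · intro c hc
      rw [hsum]
      rcases Finset.mem_insert.1 hc with rfl | hcs
      · have : (Finset.range (S + u c)).filter (fun t => (if t < S then ρ t else c) = c) =
            (Finset.range (S + u c)).filter (fun t => ¬ t < S) := by
          apply Finset.filter_congr
          intro t _
          by_cases h : t < S
          · simp only [h, if_true, not_true_eq_false, iff_false]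
            intro h'
            apply ha
            rw [← h']
            exact h1 t h
          · simp [h]
        rw [this]
        have h4 : (Finset.range (S + u c)).filter (fun t => ¬ t < S) =
            Finset.Ico S (S + u c) := by
          ext t
          simp only [Finset.mem_filter, Finset.mem_range, Finset.mem_Ico]
          omega
        rw [h4, Nat.card_Ico]
        omega
      · have : (Finset.range (S + u a)).filter (fun t => (if t < S then ρ t else a) = c) =
            (Finset.range S).filter (fun t => ρ t = c) := by
          ext t
          simp only [Finset.mem_filter, Finset.mem_range]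
          by_cases h : t < S
          · simp only [h, if_true, true_and]
            constructor
            · exact fun h' => h'.2
            · exact fun h' => ⟨by omega, h'⟩
          · simp only [h, if_false, false_and, iff_false, not_and]
            intro _ h'
            apply ha
            rw [h']
            exact hcs
        rw [this]
        exact h3 c hcs

/-- Greedy colouring. -/
theorem exists_colouring {α : Type*} [Fintype α] [DecidableEq α] [Inhabited α]
    (Forb : ℕ → Finset α) (Conf : ℕ → Finset ℕ) (V : ℕ)
    (h : ∀ σ < V, (Forb σ).card + (Conf σ).card < Fintype.card α) :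
    ∃ col : ℕ → α, ∀ σ < V, col σ ∉ Forb σ ∧ ∀ σ' ∈ Conf σ, σ' < σ → col σ' ≠ col σ := by
  classical
  induction V with
  | zero => exact ⟨fun _ => default, by simp⟩
  | succ V ih =>
    obtain ⟨col, hcol⟩ := ih (fun σ hσ => h σ (by omega))
    have hV := h V (by omega)
    set Bad := Forb V ∪ (Conf V).image col with hBad
    have hlt : Bad.card < (Finset.univ : Finset α).card := by
      rw [Finset.card_univ]
      calc Bad.card ≤ (Forb V).card + ((Conf V).image col).card := Finset.card_union_le _ _
        _ ≤ (Forb V).card + (Conf V).card := by
            have := Finset.card_image_le (s := Conf V) (f := col)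
            omega
        _ < _ := hV
    obtain ⟨x, _, hx⟩ := Finset.exists_mem_notMem_of_card_lt_card hlt
    rw [hBad, Finset.mem_union, not_or] at hx
    refine ⟨Function.update col V x, ?_⟩
    intro σ hσ
    by_cases hσV : σ = V
    · subst hσV
      rw [Function.update_self]
      refine ⟨hx.1, ?_⟩
      intro σ' hσ' hlt'
      rw [Function.update_of_ne (by omega)]
      intro he
      exact hx.2 (Finset.mem_image.2 ⟨σ', hσ', he⟩)
    · rw [Function.update_of_ne hσV]
      obtain ⟨h1, h2⟩ := hcol σ (by omega)
      refine ⟨h1, ?_⟩
      intro σ' hσ' hlt'
      rw [Function.update_of_ne (by omega)]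
      exact h2 σ' hσ' hlt'

end Golomb15
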