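import Pool.Agent.Golomb15.Count
import Pool.Agent.Golomb15.Greedy

/-!
Engine A: if `p` is a prime with `6 J ≤ p` and `p (p - 1) ≤ n`, then every set
`[0, n) \ D` with `|D| ≤ J` and `J ∣ n - |D|` is a disjoint union of `J`-mark rulers.
-/

namespace Golomb15

variable {p : ℕ} [Fact p.Prime]

/-- The colouring used for the stars. -/
theorem exists_star_colouring (J V T : ℕ) (hJ : 1 ≤ J) (hp : 6 * J ≤ p) (hV : p ≤ V)
    (hT : T = J * V) (ρ : ℕ → ZMod p)
    (hρ : ∀ t t', t' < T → ρ t = ρ t' → t ≤ t' → t' < t + (2 * J - 1))
    (K : Finset (ZMod p)) (hK : K.card ≤ J) :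
    ∃ col : ℕ → ZMod p, (∀ t < T, col (t % V) ≠ ρ t) ∧ (∀ σ < V, col σ ∉ K) ∧
      (∀ t < T, ∀ t' < T, ρ t = ρ t' → t ≠ t' → col (t % V) ≠ col (t' % V)) := by
  classical
  have hVpos : 0 < V := by omega
  set Forb : ℕ → Finset (ZMod p) := fun σ =>
    (Finset.range J).image (fun k => ρ (σ + k * V)) ∪ K with hForb
  set Conf : ℕ → Finset ℕ := fun σ =>
    (Finset.Icc 1 (2 * J - 2)).image (fun δ => (σ + δ) % V) ∪
      (Finset.Icc 1 (2 * J - 2)).image (fun δ => (σ + V - δ) % V) with hConf
  have hcard : ∀ σ < V, (Forb σ).card + (Conf σ).card < Fintype.card (ZMod p) := by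
    intro σ _
    rw [ZMod.card]
    have h1 : (Forb σ).card ≤ J + J := by
      calc (Forb σ).card ≤ ((Finset.range J).image (fun k => ρ (σ + k * V))).card + K.card :=
            Finset.card_union_le _ _
        _ ≤ (Finset.range J).card + K.card := by
            have := Finset.card_image_le (s := Finset.range J) (f := fun k => ρ (σ + k * V))
            omega
        _ ≤ J + J := by rw [Finset.card_range]; omega
    have h2 : (Conf σ).card ≤ (2 * J - 2) + (2 * J - 2) := by
      have e1 := Finset.card_image_le (s := Finset.Icc 1 (2 * J - 2))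
        (f := fun δ => (σ + δ) % V)
      have e2 := Finset.card_image_le (s := Finset.Icc 1 (2 * J - 2))
        (f := fun δ => (σ + V - δ) % V)
      rw [Nat.card_Icc] at e1 e2
      have e3 : (Conf σ).card ≤ _ := Finset.card_union_le _ _
      omega
    omega
  obtain ⟨col, hcol⟩ := exists_colouring Forb Conf V hcard
  have hlt : ∀ t, t % V < V := fun t => Nat.mod_lt _ hVpos
  have hdiv : ∀ t < T, t / V < J := by
    intro t ht
    apply Nat.div_lt_of_lt_mul
    rw [mul_comm]
    rw [hT] at ht
    exact ht
  refine ⟨col, ?_, ?_, ?_⟩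
  · intro t ht he
    have h1 := (hcol (t % V) (hlt t)).1
    apply h1
    rw [hForb]
    simp only [Finset.mem_union, Finset.mem_image, Finset.mem_range]
    left
    refine ⟨t / V, hdiv t ht, ?_⟩
    rw [he]
    congr 1
    rw [mul_comm]
    exact Nat.mod_add_div t V
  · intro σ hσ h
    apply (hcol σ hσ).1
    rw [hForb]
    exact Finset.mem_union_right _ h
  · have key : ∀ t t', t' < T → ρ t = ρ t' → t < t' → col (t % V) ≠ col (t' % V) := by
      intro t t' ht' he hlt'
      have hd := hρ t t' ht' he hlt'.le
      set δ := t' - t with hδ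
      have hδ1 : 1 ≤ δ := by omega
      have hδ2 : δ ≤ 2 * J - 2 := by omega
      have hδV : δ < V := by omega
      have ht'eq : t' = t + δ := by omega
      have hσ' : t' % V = (t % V + δ) % V := by
        rw [ht'eq, Nat.add_mod, Nat.add_mod (t % V) δ V, Nat.mod_mod]
      have htV := hlt t
      have hσ : t % V = (t' % V + V - δ) % V := by
        rw [hσ']
        by_cases hc : t % V + δ < V
        · rw [Nat.mod_eq_of_lt hc]
          have : t % V + δ + V - δ = t % V + V := by omega
          rw [this, Nat.add_mod_right, Nat.mod_mod]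
        · have h5 : (t % V + δ) % V = t % V + δ - V := by
            rw [Nat.mod_eq_sub_mod (by omega), Nat.mod_eq_of_lt (by omega)]
          rw [h5]
          have : t % V + δ - V + V - δ = t % V := by omega
          rw [this, Nat.mod_mod]
      have hmem : δ ∈ Finset.Icc 1 (2 * J - 2) := Finset.mem_Icc.2 ⟨hδ1, hδ2⟩
      rcases lt_trichotomy (t % V) (t' % V) with hc | hc | hc
      · refine (hcol (t' % V) (hlt t')).2 (t % V) ?_ hc
        rw [hConf]
        simp only [Finset.mem_union, Finset.mem_image]
        right
        exact ⟨δ, hmem, hσ.symm⟩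
      · exfalso
        rw [hσ'] at hc
        by_cases hc2 : t % V + δ < V
        · rw [Nat.mod_eq_of_lt hc2] at hc
          omega
        · have h5 : (t % V + δ) % V = t % V + δ - V := by
            rw [Nat.mod_eq_sub_mod (by omega), Nat.mod_eq_of_lt (by omega)]
          rw [h5] at hc
          omega
      · refine ((hcol (t % V) (hlt t)).2 (t' % V) ?_ hc).symm
        rw [hConf]
        simp only [Finset.mem_union, Finset.mem_image]
        left
        exact ⟨δ, hmem, hσ'.symm⟩
    intro t ht t' ht' he hne
    rcases lt_or_gt_of_ne hne with h | h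
    · exact key t t' ht' he h
    · exact (key t' t ht he.symm h).symm

theorem engineA (J n : ℕ) (hJ : 1 ≤ J) (hp : 6 * J ≤ p) (hn : md p ≤ n) (D : Finset ℕ)
    (hD : D.card ≤ J) (hDn : D ⊆ Finset.range n) (hdvd : J ∣ n - D.card) :
    Part J (Finset.range n \ D) := by
  classical
  have hprime : p.Prime := Fact.out
  obtain ⟨g, hg⟩ := exists_gen p
  have hone : (1 : ZMod p) ≠ 0 := one_ne_zero
  have htwo : (2 : ZMod p) ≠ 0 := by
    intro h
    have h2 : ((2 : ℕ) : ZMod p) = 0 := by exact_mod_cast h
    rw [ZMod.natCast_eq_zero_iff] at h2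
    have := Nat.le_of_dvd (by norm_num) h2
    omega
  have h12 : (1 : ZMod p) ≠ 2 := by
    intro h
    apply hone
    have : (1 : ZMod p) = 2 - 1 := by norm_num
    rw [this, ← h, sub_self]
  set G := Finset.range n \ D with hG
  have hGcard : G.card = n - D.card := by
    rw [hG, Finset.card_sdiff_of_subset hDn, Finset.card_range]
  set R : ZMod p → Finset ℕ := fun c => G.filter (fun N => row g 1 N = c) with hR
  set s : ZMod p → ℕ := fun c => (R c).card with hs
  set u : ZMod p → ℕ := fun c => J + s c % J with hu
  have hub : ∀ c, u c ≤ 2 * J - 1 := by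
    intro c
    have := Nat.mod_lt (s c) (show 0 < J by omega)
    simp only [hu]
    omega
  have huJ : ∀ c, J ≤ u c := fun c => Nat.le_add_right _ _
  -- total number of units
  have hsumS : ∑ c : ZMod p, s c = G.card := by
    rw [Finset.card_eq_sum_card_fiberwise (f := row g 1) (t := Finset.univ)
      (fun _ _ => Finset.mem_coe.2 (Finset.mem_univ _))]
  set T := ∑ c : ZMod p, u c with hT
  have hJT : J ∣ T := by
    have h1 : T = ∑ c : ZMod p, (J + s c % J) := rfl
    have h2 : T ≡ ∑ c : ZMod p, s c [MOD J] := by
      rw [h1]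
      apply Nat.ModEq.sum
      intro c _
      have : J + s c % J ≡ 0 + s c [MOD J] :=
        Nat.ModEq.add (Nat.modEq_zero_iff_dvd.2 dvd_rfl) (Nat.mod_modEq _ _)
      simpa using this
    rw [hsumS, hGcard] at h2
    exact (Nat.modEq_zero_iff_dvd.1 (h2.trans (Nat.modEq_zero_iff_dvd.2 hdvd)))
  obtain ⟨V, hV⟩ := hJT
  have hpV : p ≤ V := by
    have h1 : J * p ≤ J * V := by
      rw [← hV, hT]
      calc J * p = ∑ _c : ZMod p, J := by
            rw [Finset.sum_const, Finset.card_univ, ZMod.card, smul_eq_mul, mul_comm]
        _ ≤ ∑ c : ZMod p, u c := Finset.sum_le_sum (fun c _ => huJ c)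
    exact Nat.le_of_mul_le_mul_left h1 (by omega)
  have hVpos : 0 < V := by omega
  obtain ⟨ρ, hρ1, hρ2, hρ3⟩ := exists_listing u (2 * J - 1) hub (Finset.univ : Finset (ZMod p))
  rw [← hT] at hρ2
  obtain ⟨col, hc1, hc2, hc3⟩ := exists_star_colouring J V T hJ hp hpV hV ρ hρ2
    (D.image (row g 2)) (le_trans Finset.card_image_le hD)
  set ψ : ℕ → ℕ := fun t => pt g 1 2 (ρ t) (col (t % V)) with hψ
  have hψspec : ∀ t < T, ψ t < md p ∧ row g 1 (ψ t) = ρ t ∧ row g 2 (ψ t) = col (t % V) :=
    fun t ht => pt_spec hg h12 (hc1 t ht).symm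
  have hψG : ∀ t < T, ψ t ∈ G := by
    intro t ht
    obtain ⟨h1, _, h3⟩ := hψspec t ht
    rw [hG, Finset.mem_sdiff, Finset.mem_range]
    refine ⟨by omega, ?_⟩
    intro hDt
    apply hc2 (t % V) (Nat.mod_lt _ hVpos)
    rw [← h3]
    exact Finset.mem_image_of_mem _ hDt
  have hψinj : ∀ t < T, ∀ t' < T, ψ t = ψ t' → t = t' := by
    intro t ht t' ht' he
    by_contra hne
    obtain ⟨_, h2, h3⟩ := hψspec t ht
    obtain ⟨_, h2', h3'⟩ := hψspec t' ht'
    refine hc3 t ht t' ht' ?_ hne ?_
    · rw [← h2, ← h2', he]
    · rw [← h3, ← h3', he]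
  set U := (Finset.range T).image ψ with hU
  have hUG : U ⊆ G := by
    intro x hx
    obtain ⟨t, ht, rfl⟩ := Finset.mem_image.1 hx
    exact hψG t (Finset.mem_range.1 ht)
  have hUmd : ∀ x ∈ U, x < md p := by
    intro x hx
    obtain ⟨t, ht, rfl⟩ := Finset.mem_image.1 hx
    exact (hψspec t (Finset.mem_range.1 ht)).1
  -- the stars
  have hPartU : Part J U := by
    have hUeq : U = (Finset.range V).biUnion
        (fun σ => (Finset.range J).image (fun k => ψ (σ + k * V))) := by
      ext x
      simp only [hU, Finset.mem_image, Finset.mem_biUnion, Finset.mem_range]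
      constructor
      · rintro ⟨t, ht, rfl⟩
        refine ⟨t % V, Nat.mod_lt _ hVpos, t / V, ?_, ?_⟩
        · apply Nat.div_lt_of_lt_mul
          rw [mul_comm]
          rw [hV] at ht
          exact ht
        · congr 1
          rw [mul_comm]
          exact Nat.mod_add_div t V
      · rintro ⟨σ, hσ, k, hk, rfl⟩
        refine ⟨σ + k * V, ?_, rfl⟩
        rw [hV]
        calc σ + k * V < V + k * V := by omega
          _ = (k + 1) * V := by ring
          _ ≤ J * V := Nat.mul_le_mul_right _ hk
    have hltT : ∀ σ < V, ∀ k < J, σ + k * V < T := by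
      intro σ hσ k hk
      rw [hV]
      calc σ + k * V < V + k * V := by omega
        _ = (k + 1) * V := by ring
        _ ≤ J * V := Nat.mul_le_mul_right _ hk
    have hmodV : ∀ σ < V, ∀ k, (σ + k * V) % V = σ := by
      intro σ hσ k
      rw [Nat.add_mul_mod_self_right, Nat.mod_eq_of_lt hσ]
    rw [hUeq]
    apply Part.biUnion
    · intro σ hσ
      rw [Finset.mem_range] at hσ
      apply Part.single
      · rw [Finset.card_image_of_injOn, Finset.card_range]
        intro k hk k' hk' he
        rw [Finset.mem_coe, Finset.mem_range] at hk hk'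
        have := hψinj _ (hltT σ hσ k hk) _ (hltT σ hσ k' hk') he
        have h2 : k * V = k' * V := by omega
        exact Nat.eq_of_mul_eq_mul_right hVpos h2
      · apply golN_of_line hg htwo (col σ)
        · intro N hN
          obtain ⟨k, hk, rfl⟩ := Finset.mem_image.1 hN
          rw [Finset.mem_range] at hk
          rw [(hψspec _ (hltT σ hσ k hk)).2.2, hmodV σ hσ k]
        · intro M hM N hN he
          rw [Finset.mem_coe] at hM hN
          obtain ⟨k, hk, rfl⟩ := Finset.mem_image.1 hM
          obtain ⟨k', hk', rfl⟩ := Finset.mem_image.1 hN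
          rw [Finset.mem_range] at hk hk'
          simp only at he
          rwa [Nat.mod_eq_of_lt (hψspec _ (hltT σ hσ k hk)).1,
            Nat.mod_eq_of_lt (hψspec _ (hltT σ hσ k' hk')).1] at he
    · intro σ hσ σ' hσ' hne
      rw [Finset.mem_range] at hσ hσ'
      rw [Finset.disjoint_left]
      intro x hx hx'
      obtain ⟨k, hk, rfl⟩ := Finset.mem_image.1 hx
      obtain ⟨k', hk', he⟩ := Finset.mem_image.1 hx'
      rw [Finset.mem_range] at hk hk'
      have := hψinj _ (hltT σ' hσ' k' hk') _ (hltT σ hσ k hk) he
      apply hne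
      rw [← hmodV σ hσ k, ← hmodV σ' hσ' k', this]
  -- the rows
  have hPartRow : ∀ c : ZMod p, Part J (R c \ U) := by
    intro c
    have hcapU : (R c ∩ U).card = u c := by
      rw [← hρ3 c (Finset.mem_univ c), ← hT]
      symm
      refine Finset.card_bij (fun t _ => ψ t) ?_ ?_ ?_
      · intro t ht
        rw [Finset.mem_filter, Finset.mem_range] at ht
        rw [Finset.mem_inter]
        constructor
        · simp only [hR, Finset.mem_filter]
          exact ⟨hψG t ht.1, by rw [(hψspec t ht.1).2.1, ht.2]⟩
        · exact Finset.mem_image_of_mem ψ (Finset.mem_range.2 ht.1)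
      · intro t ht t' ht' he
        rw [Finset.mem_filter, Finset.mem_range] at ht ht'
        exact hψinj t ht.1 t' ht'.1 he
      · intro x hx
        rw [Finset.mem_inter] at hx
        obtain ⟨t, ht, rfl⟩ := Finset.mem_image.1 hx.2
        have h1 := hx.1
        simp only [hR, Finset.mem_filter] at h1
        refine ⟨t, Finset.mem_filter.2 ⟨ht, ?_⟩, rfl⟩
        rw [← (hψspec t (Finset.mem_range.1 ht)).2.1, h1.2]
    have hcard : (R c \ U).card + u c = s c := by
      have := Finset.card_sdiff_add_card_inter (R c) U
      rw [hcapU] at this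
      exact this
    have hdiv : J ∣ (R c \ U).card := by
      have h1 : s c = J * (s c / J) + s c % J := (Nat.div_add_mod _ _).symm
      have h2 : (R c \ U).card + J = J * (s c / J) := by
        simp only [hu] at hcard
        omega
      have h3 : J ∣ (R c \ U).card + J := h2 ▸ dvd_mul_right _ _
      exact (Nat.dvd_add_left dvd_rfl).1 h3
    obtain ⟨q, hq⟩ := hdiv
    have hsub : R c \ U ⊆ Finset.range n := by
      intro x hx
      have h1 := (Finset.mem_sdiff.1 hx).1
      simp only [hR, Finset.mem_filter] at h1
      exact (Finset.mem_sdiff.1 h1.1).1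
    have hm := md_pos (p := p)
    have hfib : ∀ r, ((R c \ U).filter (fun N => N % md p = r)).card ≤ q := by
      intro r
      rcases Nat.eq_zero_or_pos q with hq0 | hq0
      · rw [hq0, mul_zero] at hq
        have : R c \ U = ∅ := Finset.card_eq_zero.1 hq
        rw [this]
        simp
      · -- number of layers
        set k := (n - 1) / md p + 1 with hk
        have hn1 : 1 ≤ n := by omega
        have hkn : n ≤ k * md p := by
          have h1 := Nat.div_add_mod (n - 1) (md p)
          have h2 := Nat.mod_lt (n - 1) hm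
          have h3 : k * md p = md p * ((n - 1) / md p) + md p := by rw [hk]; ring
          omega
        have hkn' : (k - 1) * md p ≤ n := by
          have h1 := Nat.div_mul_le_self (n - 1) (md p)
          have h3 : k - 1 = (n - 1) / md p := Nat.add_sub_cancel _ _
          rw [h3]
          omega
        have hle := card_fibre_le (p := p) (R c \ U) n k hsub hkn r
        refine le_trans hle ?_
        rcases Nat.eq_zero_or_pos (k - 1) with hk1 | hk1
        · omega
        · -- `k ≥ 2`
          have h1 := card_row_ge hg 1 c (k - 1) n hkn'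
          have h2 : ((Finset.range n).filter (fun N => row g 1 N = c)).card ≤ s c + J := by
            have h3 : (Finset.range n).filter (fun N => row g 1 N = c) ⊆ R c ∪ D := by
              intro x hx
              rw [Finset.mem_filter] at hx
              rw [Finset.mem_union]
              by_cases hxD : x ∈ D
              · exact Or.inr hxD
              · left
                simp only [hR, Finset.mem_filter]
                exact ⟨Finset.mem_sdiff.2 ⟨hx.1, hxD⟩, hx.2⟩
            calc _ ≤ (R c ∪ D).card := Finset.card_le_card h3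
              _ ≤ (R c).card + D.card := Finset.card_union_le _ _
              _ ≤ s c + J := by
                  simp only [hs]
                  omega
          have h4 := hub c
          have h5 : (k - 1) * (p - 1) ≤ J * q + (3 * J - 1) := by omega
          have h6 : (k - 1) * (6 * J - 1) ≤ (k - 1) * (p - 1) :=
            Nat.mul_le_mul_left _ (by omega)
          have h7 : (k - 1) * (6 * J - 1) ≤ J * q + (3 * J - 1) := h6.trans h5
          -- derive `k ≤ q`
          by_contra hlt
          rw [not_le] at hlt
          obtain ⟨k', hk'⟩ : ∃ k', k = k' + 2 := ⟨k - 2, by omega⟩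
          obtain ⟨J', hJ'⟩ : ∃ J', J = J' + 1 := ⟨J - 1, by omega⟩
          have h8 : J * q ≤ J * (k - 1) := Nat.mul_le_mul_left _ (by omega)
          have h9 : (k - 1) * (6 * J - 1) ≤ J * (k - 1) + (3 * J - 1) := by omega
          rw [hk', hJ'] at h9
          have e1 : k' + 2 - 1 = k' + 1 := by omega
          have e2 : 6 * (J' + 1) - 1 = 6 * J' + 5 := by omega
          have e3 : 3 * (J' + 1) - 1 = 3 * J' + 2 := by omega
          rw [e1, e2, e3] at h9
          nlinarith [Nat.zero_le (k' * J')]
    apply Part.of_roundRobin (fun N => N % md p) (R c \ U) hq hfib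
    intro B hB hinj
    apply golN_of_line hg hone c B _ hinj
    intro N hN
    have h1 := (Finset.mem_sdiff.1 (hB hN)).1
    simp only [hR, Finset.mem_filter] at h1
    exact h1.2
  have hfinal : G = U ∪ (Finset.univ : Finset (ZMod p)).biUnion (fun c => R c \ U) := by
    ext x
    simp only [Finset.mem_union, Finset.mem_biUnion, Finset.mem_univ, true_and,
      Finset.mem_sdiff, hR, Finset.mem_filter]
    constructor
    · intro hx
      by_cases hxU : x ∈ U
      · exact Or.inl hxU
      · exact Or.inr ⟨row g 1 x, ⟨hx, rfl⟩, hxU⟩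
    · rintro (hx | ⟨c, ⟨hx, _⟩, _⟩)
      · exact hUG hx
      · exact hx
  rw [hfinal]
  apply Part.union hPartU
  · apply Part.biUnion
    · intro c _
      exact hPartRow c
    · intro c _ c' _ hne
      rw [Finset.disjoint_left]
      intro x hx hx'
      have h1 := (Finset.mem_sdiff.1 hx).1
      have h2 := (Finset.mem_sdiff.1 hx').1
      simp only [hR, Finset.mem_filter] at h1 h2
      exact hne (h1.2.symm.trans h2.2)
  · rw [Finset.disjoint_biUnion_right]
    intro c _
    exact Finset.disjoint_sdiff

end Golomb15
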