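import Pool.Agent.Golomb15.Final

/-!
Q1 holds for all `J ≥ 1` and all `I ≥ 144 J - 55`: the complement of every `J`-element subset of
`{1, ..., (I + 1) J}` is a disjoint union of `I` Golomb rulers with `J` marks.
-/

namespace Pool.Agent.Golomb15.ExplicitRange

open _root_.Golomb15

theorem result : ∀ J : ℕ, 1 ≤ J → ∀ I : ℕ, 144 * J ≤ I + 55 → ∀ A₁ : Finset ℤ,
    A₁ ⊆ Finset.Icc 1 (((I + 1) * J : ℕ) : ℤ) → A₁.card = J →
    Splits I J (Finset.Icc 1 (((I + 1) * J : ℕ) : ℤ) \ A₁) := by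
  intro J hJ I hI A₁ hsub hcard
  apply splits_of_QP hJ _ A₁ hcard hsub
  apply qp_explicit J _ hJ
  have h1 : J * (144 * J) ≤ J * (I + 55) := Nat.mul_le_mul_left _ hI
  have e1 : 144 * J ^ 2 = J * (144 * J) := by ring
  have e2 : (I + 1) * J + 54 * J = J * (I + 55) := by ring
  rw [e1, e2]
  exact h1

end Pool.Agent.Golomb15.ExplicitRange
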