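import Mathlib
import Pool.Agent.Helper44.PNT.PNT

/-!
Primes in short intervals `(x, (1 + η) x]`.
-/

open Filter Topology

namespace Golomb15

theorem exists_prime_between (η : ℝ) (hη : 0 < η) :
    ∀ᶠ x : ℝ in atTop, ∃ p : ℕ, p.Prime ∧ x < p ∧ (p : ℝ) ≤ (1 + η) * x := by
  have h1 := Pool.Agent.Helper44.PNT.theta_div_tendsto
  have h2 : Tendsto (fun x : ℝ => (1 + η) * x) atTop atTop :=
    tendsto_id.const_mul_atTop (by linarith)
  have h3 := h1.comp h2
  have h4 : Tendsto (fun x : ℝ => (1 + η) * (Chebyshev.theta ((1 + η) * x) / ((1 + η) * x)) -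
      Chebyshev.theta x / x) atTop (𝓝 ((1 + η) * 1 - 1)) :=
    (h3.const_mul (1 + η)).sub h1
  have h5 : ∀ᶠ x : ℝ in atTop, 0 < (1 + η) * (Chebyshev.theta ((1 + η) * x) / ((1 + η) * x)) -
      Chebyshev.theta x / x := h4.eventually (lt_mem_nhds (by linarith))
  filter_upwards [h5, eventually_gt_atTop 0] with x hx hx0
  by_contra hcon
  push Not at hcon
  have h6 : Chebyshev.theta ((1 + η) * x) = Chebyshev.theta x := by
    unfold Chebyshev.theta
    symm
    apply Finset.sum_subset
    · intro p hp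
      rw [Finset.mem_filter, Finset.mem_Ioc] at hp ⊢
      refine ⟨⟨hp.1.1, hp.1.2.trans (Nat.floor_mono (by nlinarith))⟩, hp.2⟩
    · intro p hp hp'
      exfalso
      rw [Finset.mem_filter, Finset.mem_Ioc] at hp
      have hpx : x < p := by
        by_contra hle
        rw [not_lt] at hle
        apply hp'
        rw [Finset.mem_filter, Finset.mem_Ioc]
        exact ⟨⟨hp.1.1, Nat.le_floor hle⟩, hp.2⟩
      have h7 := hcon p hp.2 hpx
      have h8 : (p : ℝ) ≤ (1 + η) * x :=
        (Nat.cast_le.2 hp.1.2).trans (Nat.floor_le (by positivity))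
      linarith
  rw [h6] at hx
  have h9 : (1 + η) * (Chebyshev.theta x / ((1 + η) * x)) = Chebyshev.theta x / x := by
    field_simp
  rw [h9] at hx
  linarith

end Golomb15
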