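import Pool.Agent.Golomb15.Slopes
import Pool.Agent.Golomb15.EngineA
import Pool.Agent.Golomb15.Blocks
import Pool.Agent.Golomb15.Primes

/-!
Choice of the parameters, and the partition property in the two ranges.
-/

open Filter Topology

namespace Golomb15

/-- The partition property for all `n ≥ 144 J²`. -/
theorem qp_explicit (J n : ℕ) (hJ : 1 ≤ J) (hn : 144 * J ^ 2 ≤ n + 54 * J) : QP J n := by
  obtain ⟨p, hp, hp1, hp2⟩ := Nat.exists_prime_lt_and_le_two_mul (6 * J - 1) (by omega)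
  have : Fact p.Prime := ⟨hp⟩
  intro D hD hDn hdvd
  refine engineA (p := p) J n hJ (by omega) ?_ D hD hDn hdvd
  have h1 : p ≤ 12 * J - 2 := by omega
  have h2 : md p ≤ (12 * J - 2) * (12 * J - 3) := Nat.mul_le_mul h1 (by omega)
  obtain ⟨j, rfl⟩ : ∃ j, J = j + 1 := ⟨J - 1, by omega⟩
  have e1 : 12 * (j + 1) - 2 = 12 * j + 10 := by omega
  have e2 : 12 * (j + 1) - 3 = 12 * j + 9 := by omega
  rw [e1, e2] at h2
  nlinarith

theorem window_real (δ j N r P η H : ℝ) (hδ : 0 < δ) (hδ4 : δ ≤ 1 / 4)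
    (hj : 10001 ≤ δ ^ 2 * j) (hj0 : 0 < j) (hN1 : (1 + δ) * j ^ 2 ≤ N) (hN2 : N ≤ 3 * j ^ 2)
    (hr : r = √N) (hη : η = δ ^ 2 / 30000) (hP1 : r + 1 < P) (hP2 : P ≤ (1 + η) * (r + 1))
    (hH : H = P * (P - 1) - N) :
    P ≤ 2 * j ∧ N ≤ P * (P - 1) ∧ δ * j / 3 < P - 1 - j ∧ H ≤ δ ^ 2 * j ^ 2 / 1250 := by
  have hN0 : 0 ≤ N := by nlinarith [sq_nonneg j]
  have hr0 : 0 ≤ r := by rw [hr]; exact Real.sqrt_nonneg _
  have hr2 : r ^ 2 = N := by rw [hr]; exact Real.sq_sqrt hN0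
  have hδ2 : δ ^ 2 ≤ 1 / 16 := by nlinarith
  have hj1 : 160016 ≤ j := by nlinarith
  have hr1 : (1 + δ / 3) * j ≤ r := by
    apply le_of_sq_le_sq _ hr0
    rw [hr2]
    refine le_trans ?_ hN1
    have : (1 + δ / 3) ^ 2 ≤ 1 + δ := by nlinarith
    calc ((1 + δ / 3) * j) ^ 2 = (1 + δ / 3) ^ 2 * j ^ 2 := by ring
      _ ≤ (1 + δ) * j ^ 2 := mul_le_mul_of_nonneg_right this (sq_nonneg _)
  have hr3 : r ≤ 1.74 * j := by
    apply le_of_sq_le_sq _ (by positivity)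
    rw [hr2]
    nlinarith
  have hη0 : 0 ≤ η := by rw [hη]; positivity
  have hη1 : η ≤ 1 / 100 := by rw [hη]; linarith
  have hrj : r + 1 ≤ 2 * j := by linarith
  refine ⟨?_, ?_, ?_, ?_⟩
  · calc P ≤ (1 + η) * (r + 1) := hP2
      _ ≤ (1 + 1 / 100) * (1.74 * j + 1) :=
          mul_le_mul (by linarith) (by linarith) (by linarith) (by norm_num)
      _ ≤ 2 * j := by linarith
  · rw [← hr2]
    nlinarith
  · linarith
  · have h1 : P ^ 2 ≤ ((1 + η) * (r + 1)) ^ 2 := pow_le_pow_left₀ (by linarith) hP2 2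
    have h2 : (1 + η) ^ 2 ≤ 1 + 3 * η := by nlinarith
    have h3 : ((1 + η) * (r + 1)) ^ 2 ≤ (1 + 3 * η) * (r + 1) ^ 2 := by
      rw [mul_pow]
      exact mul_le_mul_of_nonneg_right h2 (sq_nonneg _)
    have h4 : (r + 1) ^ 2 ≤ (2 * j) ^ 2 := pow_le_pow_left₀ (by linarith) hrj 2
    have h5 : H ≤ 3 * η * (2 * j) ^ 2 + 2 * r + 1 := by
      have e1 : H ≤ P ^ 2 - N := by
        rw [hH]
        nlinarith
      have e2 : 3 * η * (r + 1) ^ 2 ≤ 3 * η * (2 * j) ^ 2 :=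
        mul_le_mul_of_nonneg_left h4 (by positivity)
      rw [← hr2] at e1
      nlinarith
    have h6 : 10001 * j ≤ δ ^ 2 * j ^ 2 := by nlinarith
    have h7 : 3 * η * (2 * j) ^ 2 = δ ^ 2 * j ^ 2 / 2500 := by
      rw [hη]
      ring
    rw [h7] at h5
    linarith

theorem real_hL (δ j L P : ℝ) (hj0 : 0 < j) (h : 10001 ≤ δ ^ 2 * j)
    (hL2 : δ ^ 2 * j ^ 2 / 625 ≤ L * L) (hL0 : 0 < L) (h2 : j ≤ P) :
    j * j < P * ((L + 1) * L) := by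
  have h3 : j * (δ ^ 2 * j ^ 2 / 625) ≤ P * ((L + 1) * L) := by
    apply mul_le_mul h2 _ (by positivity) (by linarith)
    nlinarith
  have h5 : j * (δ ^ 2 * j ^ 2 / 625) = j * j * (δ ^ 2 * j / 625) := by ring
  have h6 : (1 : ℝ) < δ ^ 2 * j / 625 := by linarith
  have h7 : 0 < j * j := by positivity
  have h8 : j * j * 1 < j * j * (δ ^ 2 * j / 625) := mul_lt_mul_of_pos_left h6 h7
  linarith

theorem real_small (δ j : ℝ) (hδ4 : δ ≤ 1 / 4) (hδ : 0 < δ) (hj : 10001 ≤ δ ^ 2 * j) :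
    0 < j ∧ 160016 ≤ j ∧ 40000 ≤ δ * j ∧ 10001 * j ≤ δ ^ 2 * j ^ 2 := by
  have hj0 : 0 < j := by
    by_contra h
    rw [not_lt] at h
    nlinarith [sq_nonneg δ]
  have hδ2 : δ ^ 2 ≤ 1 / 16 := by nlinarith
  refine ⟨hj0, by nlinarith, ?_, ?_⟩
  · have : 10001 ≤ δ * (δ * j) := by nlinarith
    nlinarith [mul_pos hδ hj0]
  · have := mul_le_mul_of_nonneg_right hj hj0.le
    calc 10001 * j ≤ δ ^ 2 * j * j := this
      _ = δ ^ 2 * j ^ 2 := by ring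

theorem qp_window (δ : ℝ) (hδ : 0 < δ) (hδ4 : δ ≤ 1 / 4) : ∃ J₀ : ℕ, ∀ J ≥ J₀, ∀ n : ℕ,
    (1 + δ) * (J : ℝ) ^ 2 ≤ n → (n : ℝ) ≤ 3 * (J : ℝ) ^ 2 → QP J n := by
  set η := δ ^ 2 / 30000 with hη
  have hη0 : 0 < η := by positivity
  obtain ⟨X, hX⟩ := Filter.eventually_atTop.1 (exists_prime_between η hη0)
  refine ⟨max ⌈X⌉₊ ⌈10001 / δ ^ 2⌉₊, ?_⟩
  intro J hJ n hn1 hn2
  have hJX : X ≤ J := (Nat.le_ceil X).trans (Nat.cast_le.2 ((le_max_left _ _).trans hJ))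
  have hJδ : 10001 / δ ^ 2 ≤ J :=
    (Nat.le_ceil _).trans (Nat.cast_le.2 ((le_max_right _ _).trans hJ))
  have hj : 10001 ≤ δ ^ 2 * (J : ℝ) := by
    rw [div_le_iff₀ (by positivity)] at hJδ
    linarith
  obtain ⟨hj0, hj1, hδj, hj2⟩ := real_small δ J hδ4 hδ hj
  set r := √(n : ℝ) with hr
  have hrj : (J : ℝ) ≤ r := by
    rw [hr]
    apply Real.le_sqrt_of_sq_le
    refine le_trans ?_ hn1
    have := mul_nonneg hδ.le (sq_nonneg (J : ℝ))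
    linarith
  obtain ⟨p, hp, hp1, hp2⟩ := hX (r + 1) (by linarith)
  have : Fact p.Prime := ⟨hp⟩
  have hp2le := hp.two_le
  have hmdR : ((md p : ℕ) : ℝ) = (p : ℝ) * ((p : ℝ) - 1) := by
    unfold md
    rw [Nat.cast_mul, Nat.cast_sub (by omega), Nat.cast_one]
  obtain ⟨hP2j, hNP, hW, hH⟩ := window_real δ J n r p η ((p : ℝ) * ((p : ℝ) - 1) - n) hδ hδ4 hj
    hj0 hn1 hn2 hr hη hp1 hp2 rfl
  intro D hD hDn hdvd
  have hn : n ≤ md p := by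
    have : (n : ℝ) ≤ ((md p : ℕ) : ℝ) := by rw [hmdR]; exact hNP
    exact_mod_cast this
  have hJp : J + 1 < p := by
    have : ((J + 1 : ℕ) : ℝ) < p := by
      push_cast
      linarith
    exact_mod_cast this
  have hp2' : p ≤ 2 * J := by
    have : (p : ℝ) ≤ ((2 * J : ℕ) : ℝ) := by push_cast; exact hP2j
    exact_mod_cast this
  obtain ⟨w, hw⟩ : ∃ w, p = w + 1 + J := ⟨p - 1 - J, by omega⟩
  have hwR : (p : ℝ) = w + 1 + J := by exact_mod_cast hw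
  have hwW : δ * J / 3 < w := by
    rw [hwR] at hW
    linarith
  set L := w / 8 with hL
  have hL8 : 8 * L ≤ w := Nat.mul_div_le w 8
  have hLR : δ * J / 25 ≤ L := by
    have h1 : w < 8 * L + 8 := by omega
    have h2 : (w : ℝ) < 8 * L + 8 := by exact_mod_cast h1
    linarith
  have hL0 : 0 < (L : ℝ) := by
    have : 0 < δ * J / 25 := by positivity
    linarith
  have hL2 : δ ^ 2 * (J : ℝ) ^ 2 / 625 ≤ (L : ℝ) * L := by
    have h1 : (δ * J / 25) * (δ * J / 25) ≤ (L : ℝ) * L :=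
      mul_le_mul hLR hLR (by positivity) hL0.le
    calc δ ^ 2 * (J : ℝ) ^ 2 / 625 = (δ * J / 25) * (δ * J / 25) := by ring
      _ ≤ _ := h1
  have hHR : ((md p - n : ℕ) : ℝ) ≤ δ ^ 2 * (J : ℝ) ^ 2 / 1250 := by
    rw [Nat.cast_sub hn, hmdR]
    exact hH
  refine engineB' (p := p) J n L L ?_ hJp hp2' hn ?_ D hD hDn hdvd ?_ ?_ ?_
  · have : (1 : ℝ) ≤ J := by linarith
    exact_mod_cast this
  · have hpJ : p - J = w + 1 := by omega
    rw [hpJ]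
    have h1 : ((md p - n : ℕ) : ℝ) + J + p ≤ ((w : ℝ) + 1) ^ 2 := by
      have h3 : δ ^ 2 * (J : ℝ) ^ 2 / 9 ≤ ((w : ℝ) + 1) ^ 2 := by
        have h4 : (δ * J / 3) ^ 2 ≤ ((w : ℝ) + 1) ^ 2 :=
          pow_le_pow_left₀ (by positivity) (by linarith) 2
        calc δ ^ 2 * (J : ℝ) ^ 2 / 9 = (δ * J / 3) ^ 2 := by ring
          _ ≤ _ := h4
      linarith
    exact_mod_cast h1
  · obtain ⟨p', hp'⟩ : ∃ p', p = p' + 2 := ⟨p - 2, by omega⟩
    have hp'2 : p - 2 = p' := by omega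
    rw [hp'2]
    have hp'R : (p : ℝ) = p' + 2 := by exact_mod_cast hp'
    have h1 : (J : ℝ) * J < (p' : ℝ) * (((L : ℝ) + 1) * L) := by
      apply real_hL δ J L p' hj0 hj hL2 hL0
      have h3 : (p' : ℝ) = w - 1 + J := by linarith
      rw [h3]
      linarith
    exact_mod_cast h1
  · have h1 : 2 * ((md p - n : ℕ) : ℝ) < ((L : ℝ) + 1) * L := by
      have e1 : ((L : ℝ) + 1) * L = L * L + L := by ring
      rw [e1]
      linarith
    exact_mod_cast h1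
  · omega

/-- The partition property for all `n ≥ (1 + ε) J²`, `J` large. -/
theorem qp_large (ε : ℝ) (hε : 0 < ε) : ∃ J₀ : ℕ, 1 ≤ J₀ ∧ ∀ J ≥ J₀, ∀ n : ℕ,
    (1 + ε) * (J : ℝ) ^ 2 ≤ n → QP J n := by
  set δ := min ε (1 / 4) with hδ
  have hδ0 : 0 < δ := lt_min hε (by norm_num)
  obtain ⟨J₀, hJ₀⟩ := qp_window δ hδ0 (min_le_right _ _)
  refine ⟨max J₀ 10, le_trans (by norm_num) (le_max_right _ _), ?_⟩
  intro J hJ n hn
  have hJ1 : J₀ ≤ J := (le_max_left _ _).trans hJ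
  have hJ10 : 10 ≤ J := (le_max_right _ _).trans hJ
  have hJ10R : (10 : ℝ) ≤ J := by exact_mod_cast hJ10
  have hδε : δ ≤ ε := min_le_left _ _
  have hδ4 : δ ≤ 1 / 4 := min_le_right _ _
  set N₀ := ⌈(1 + δ) * (J : ℝ) ^ 2⌉₊ with hN₀
  have hN₀1 : (1 + δ) * (J : ℝ) ^ 2 ≤ N₀ := Nat.le_ceil _
  have hN₀2 : (N₀ : ℝ) < (1 + δ) * (J : ℝ) ^ 2 + 1 := Nat.ceil_lt_add_one (by positivity)
  refine QP.of_blocks J N₀ (by omega) ?_ n ?_
  · intro n' h1 h2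
    apply hJ₀ J hJ1 n'
    · exact hN₀1.trans (by exact_mod_cast h1)
    · have h3 : (n' : ℝ) ≤ 2 * N₀ + 2 * J := by exact_mod_cast h2
      nlinarith [sq_nonneg (J : ℝ)]
  · rw [hN₀]
    apply Nat.ceil_le.2
    refine le_trans ?_ hn
    exact mul_le_mul_of_nonneg_right (by linarith) (sq_nonneg _)

end Golomb15
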