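import Pool.Agent.Golomb15.Defs
import Pool.Agent.Golomb15.Params

/-!
From the partition property to regular families of disjoint Golomb rulers.
-/

namespace Golomb15

/-- The embedding `x ↦ x + 1` of the natural numbers in the integers. -/
def emb (x : ℕ) : ℤ := (x : ℤ) + 1

theorem emb_injective : Function.Injective emb := by
  intro x y h
  unfold emb at h
  omega

theorem isGolomb_image {B : Finset ℕ} (hB : GolN B) : IsGolomb (B.image emb) := by
  intro a ha a' ha' b hb b' hb' hne he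
  obtain ⟨x, hx, rfl⟩ := Finset.mem_image.1 ha
  obtain ⟨x', hx', rfl⟩ := Finset.mem_image.1 ha'
  obtain ⟨y, hy, rfl⟩ := Finset.mem_image.1 hb
  obtain ⟨y', hy', rfl⟩ := Finset.mem_image.1 hb'
  unfold emb at he hne ⊢
  obtain ⟨h1, h2⟩ := hB x hx x' hx' y hy y' hy' (by
    intro h
    apply hne
    rw [h]) (by omega)
  rw [h1, h2]
  exact ⟨rfl, rfl⟩

theorem exists_family {J I n : ℕ} (hJ : 1 ≤ J) (D : Finset ℕ) (hDn : D ⊆ Finset.range n)
    (hcard : n - D.card = I * J) (hP : Part J (Finset.range n \ D)) :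
    ∃ F : Finset (Finset ℤ), F.card = I ∧
      (∀ A ∈ F, A.card = J ∧ IsGolomb A ∧ A ⊆ Finset.Icc 1 (n : ℤ) ∧
        Disjoint A (D.image emb)) ∧
      ∀ A ∈ F, ∀ B ∈ F, A ≠ B → Disjoint A B := by
  classical
  obtain ⟨F, hF1, hF2, hF3⟩ := hP
  have hsub : ∀ B ∈ F, B ⊆ Finset.range n \ D := by
    intro B hB x hx
    rw [← hF3]
    exact Finset.mem_biUnion.2 ⟨B, hB, hx⟩
  have hFcard : F.card = I := by
    have h1 : (F.biUnion id).card = ∑ B ∈ F, (id B : Finset ℕ).card :=
      Finset.card_biUnion (fun B hB C hC hne => hF2 B hB C hC hne)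
    rw [hF3, Finset.card_sdiff_of_subset hDn, Finset.card_range, hcard] at h1
    have h2 : ∑ B ∈ F, (id B : Finset ℕ).card = F.card * J := by
      rw [← smul_eq_mul, ← Finset.sum_const]
      exact Finset.sum_congr rfl (fun B hB => (hF1 B hB).1)
    rw [h2] at h1
    exact (Nat.eq_of_mul_eq_mul_right (by omega) h1).symm
  have himg : Function.Injective (fun B : Finset ℕ => B.image emb) :=
    Finset.image_injective emb_injective
  refine ⟨F.image (fun B => B.image emb), ?_, ?_, ?_⟩
  · rw [Finset.card_image_of_injective _ himg, hFcard]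
  · intro A hA
    obtain ⟨B, hB, rfl⟩ := Finset.mem_image.1 hA
    refine ⟨?_, isGolomb_image (hF1 B hB).2, ?_, ?_⟩
    · rw [Finset.card_image_of_injective _ emb_injective]
      exact (hF1 B hB).1
    · intro x hx
      obtain ⟨y, hy, rfl⟩ := Finset.mem_image.1 hx
      have := hsub B hB hy
      rw [Finset.mem_sdiff, Finset.mem_range] at this
      rw [Finset.mem_Icc]
      unfold emb
      omega
    · rw [Finset.disjoint_image emb_injective, Finset.disjoint_left]
      intro x hx
      exact (Finset.mem_sdiff.1 (hsub B hB hx)).2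
  · intro A hA A' hA' hne
    obtain ⟨B, hB, rfl⟩ := Finset.mem_image.1 hA
    obtain ⟨B', hB', rfl⟩ := Finset.mem_image.1 hA'
    rw [Finset.disjoint_image emb_injective]
    apply hF2 B hB B' hB'
    rintro rfl
    exact hne rfl

/-- The complement of a set with `J` elements splits. -/
theorem splits_of_QP {J I : ℕ} (hJ : 1 ≤ J) (hQ : QP J ((I + 1) * J)) (A₁ : Finset ℤ)
    (hA : A₁.card = J) (hsub : A₁ ⊆ Finset.Icc 1 (((I + 1) * J : ℕ) : ℤ)) :
    Splits I J (Finset.Icc 1 (((I + 1) * J : ℕ) : ℤ) \ A₁) := by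
  classical
  set D : Finset ℕ := A₁.image (fun x => (x - 1).toNat) with hD
  have hinj : Set.InjOn (fun x : ℤ => (x - 1).toNat) (A₁ : Set ℤ) := by
    intro x hx y hy h
    have h1 := Finset.mem_Icc.1 (hsub hx)
    have h2 := Finset.mem_Icc.1 (hsub hy)
    simp only at h
    omega
  have hDcard : D.card = J := by
    rw [hD, Finset.card_image_of_injOn hinj, hA]
  have hDemb : D.image emb = A₁ := by
    ext x
    rw [hD, Finset.image_image, Finset.mem_image]
    constructor
    · rintro ⟨y, hy, rfl⟩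
      have h1 := Finset.mem_Icc.1 (hsub hy)
      have h2 : (emb ∘ fun x : ℤ => (x - 1).toNat) y = y := by
        unfold emb
        simp only [Function.comp_apply]
        omega
      rw [h2]
      exact hy
    · intro hx
      refine ⟨x, hx, ?_⟩
      have h1 := Finset.mem_Icc.1 (hsub hx)
      unfold emb
      simp only [Function.comp_apply]
      omega
  have hDn : D ⊆ Finset.range ((I + 1) * J) := by
    intro y hy
    obtain ⟨x, hx, rfl⟩ := Finset.mem_image.1 hy
    have h1 := Finset.mem_Icc.1 (hsub hx)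
    rw [Finset.mem_range]
    omega
  have hcard : (I + 1) * J - D.card = I * J := by
    rw [hDcard]
    have : (I + 1) * J = I * J + J := by ring
    omega
  obtain ⟨F, hF1, hF2, hF3⟩ := exists_family hJ D hDn hcard
    (hQ D hDcard.le hDn (by rw [hcard]; exact dvd_mul_left _ _))
  rw [hDemb] at hF2
  refine ⟨F, hF1, fun A h => ⟨(hF2 A h).1, (hF2 A h).2.1⟩, hF3, ?_⟩
  apply Finset.eq_of_subset_of_card_le
  · intro x hx
    obtain ⟨B, hB, hxB⟩ := Finset.mem_biUnion.1 hx
    obtain ⟨_, _, h3, h4⟩ := hF2 B hB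
    rw [Finset.mem_sdiff]
    exact ⟨h3 hxB, Finset.disjoint_left.1 h4 hxB⟩
  · have h1 : (F.biUnion id).card = ∑ B ∈ F, (id B : Finset ℤ).card :=
      Finset.card_biUnion (fun B hB C hC hne => hF3 B hB C hC hne)
    have h2 : ∑ B ∈ F, (id B : Finset ℤ).card = F.card * J := by
      rw [← smul_eq_mul, ← Finset.sum_const]
      exact Finset.sum_congr rfl (fun B hB => (hF2 B hB).1)
    rw [h1, h2, hF1, Finset.card_sdiff_of_subset hsub, hA, Int.card_Icc]
    have : (I + 1) * J = I * J + J := by ring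
    omega

/-- An `(I, J, n)`-DGR has `I J ≤ n`. -/
theorem IsDGR.le {I J n : ℕ} {F : Finset (Finset ℤ)} (h : IsDGR I J n F) : I * J ≤ n := by
  classical
  have h1 : (F.biUnion id).card = ∑ B ∈ F, (id B : Finset ℤ).card :=
    Finset.card_biUnion (fun B hB C hC hne => h.disj B hB C hC hne)
  have h2 : ∑ B ∈ F, (id B : Finset ℤ).card = F.card * J := by
    rw [← smul_eq_mul, ← Finset.sum_const]
    exact Finset.sum_congr rfl (fun B hB => (h.ruler B hB).1)
  have h3 : (F.biUnion id).card ≤ (Finset.Icc 1 (n : ℤ)).card := by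
    apply Finset.card_le_card
    intro x hx
    obtain ⟨B, hB, hxB⟩ := Finset.mem_biUnion.1 hx
    exact (h.ruler B hB).2.2 hxB
  rw [h1, h2, h.card, Int.card_Icc] at h3
  omega

theorem H_eq_of_dgr {I J : ℕ} (h : ∃ F, IsDGR I J (I * J) F) : H I J = I * J := by
  unfold H
  have hmem : I * J ∈ {n | ∃ F, IsDGR I J n F} := h
  apply le_antisymm
  · exact Nat.sInf_le hmem
  · refine le_csInf ⟨I * J, hmem⟩ ?_
    rintro n ⟨F, hF⟩
    exact hF.le

theorem dgr_of_H_eq {I J : ℕ} (hI : 1 ≤ I) (hJ : 1 ≤ J) (h : H I J = I * J) :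
    ∃ F, IsDGR I J (I * J) F := by
  unfold H at h
  have hne : {n | ∃ F, IsDGR I J n F}.Nonempty := by
    by_contra hcon
    rw [Set.not_nonempty_iff_eq_empty] at hcon
    rw [hcon, Nat.sInf_empty] at h
    have : 0 < I * J := Nat.mul_pos hI hJ
    omega
  have := Nat.sInf_mem hne
  rw [h] at this
  exact this

theorem dgr_of_QP {J I : ℕ} (hJ : 1 ≤ J) (hQ : QP J (I * J)) : ∃ F, IsDGR I J (I * J) F := by
  have h1 := hQ ∅ (by simp) (by simp) (by simp)
  obtain ⟨F, hF1, hF2, hF3⟩ := exists_family (I := I) hJ ∅ (by simp) (by simp) h1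
  exact ⟨F, hF1, fun A hA => ⟨(hF2 A hA).1, (hF2 A hA).2.1, (hF2 A hA).2.2.1⟩, hF3⟩

end Golomb15
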