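import Pool.Agent.Golomb15.Count

/-!
Assignment of the points to rows and columns by Hall's theorem.
-/

namespace Golomb15

open Classical in
/-- Hall's theorem for an assignment of the elements of `G` to a row class or a column class,
each class receiving at most `J` elements. -/
theorem exists_assignment {ρ κ : Type*} [Fintype ρ] [Fintype κ] [Inhabited ρ]
    (G : Finset ℕ) (r : ℕ → ρ) (k : ℕ → κ) (S : Finset κ) (J : ℕ)
    (cond : ∀ A : Finset ρ, ∀ B : Finset κ, B ⊆ S →
      (G.filter (fun N => r N ∈ A ∧ (k N ∈ B ∨ k N ∉ S))).card ≤ J * (A.card + B.card)) :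
    ∃ Φ : ℕ → ρ ⊕ κ, (∀ N ∈ G, Φ N = Sum.inl (r N) ∨ (Φ N = Sum.inr (k N) ∧ k N ∈ S)) ∧
      ∀ z, (G.filter (fun N => Φ N = z)).card ≤ J := by
  set t : {N // N ∈ G} → Finset ((ρ ⊕ κ) × Fin J) := fun N =>
    (({Sum.inl (r N.1)} : Finset (ρ ⊕ κ)) ∪
      (if k N.1 ∈ S then {Sum.inr (k N.1)} else ∅)) ×ˢ Finset.univ with ht
  have hall : ∀ s : Finset {N // N ∈ G}, s.card ≤ (s.biUnion t).card := by
    intro s
    set A : Finset ρ := s.image (fun N => r N.1) with hA
    set B : Finset κ := (s.image (fun N => k N.1)).filter (· ∈ S) with hB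
    have hBS : B ⊆ S := fun x hx => (Finset.mem_filter.1 hx).2
    have h1 : s.card ≤ (G.filter (fun N => r N ∈ A ∧ (k N ∈ B ∨ k N ∉ S))).card := by
      refine Finset.card_le_card_of_injOn (fun N => N.1) ?_ ?_
      · intro N hN
        rw [Finset.mem_coe] at hN
        rw [Finset.mem_coe, Finset.mem_filter]
        refine ⟨N.2, Finset.mem_image.2 ⟨N, hN, rfl⟩, ?_⟩
        by_cases hk : k N.1 ∈ S
        · left
          rw [hB, Finset.mem_filter]
          exact ⟨Finset.mem_image.2 ⟨N, hN, rfl⟩, hk⟩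
        · right
          exact hk
      · intro M _ N _ h
        exact Subtype.ext h
    have h2 := cond A B hBS
    have h3 : (A.disjSum B) ×ˢ (Finset.univ : Finset (Fin J)) ⊆ s.biUnion t := by
      rintro ⟨z, j⟩ hz
      rw [Finset.mem_product, Finset.mem_disjSum] at hz
      rw [Finset.mem_biUnion]
      rcases hz.1 with ⟨a, ha, he⟩ | ⟨b, hb, he⟩
      · obtain ⟨N, hN, hNa⟩ := Finset.mem_image.1 ha
        refine ⟨N, hN, ?_⟩
        simp only [ht, Finset.mem_product, Finset.mem_univ, and_true, Finset.mem_union,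
          Finset.mem_singleton]
        left
        rw [← hNa] at he
        exact he.symm
      · rw [hB, Finset.mem_filter] at hb
        obtain ⟨N, hN, hNb⟩ := Finset.mem_image.1 hb.1
        refine ⟨N, hN, ?_⟩
        simp only [ht, Finset.mem_product, Finset.mem_univ, and_true, Finset.mem_union,
          Finset.mem_singleton]
        right
        rw [hNb, if_pos hb.2, Finset.mem_singleton]
        exact he.symm
    have h4 := Finset.card_le_card h3
    rw [Finset.card_product, Finset.card_disjSum, Finset.card_univ, Fintype.card_fin] at h4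
    calc s.card ≤ J * (A.card + B.card) := h1.trans h2
      _ = (A.card + B.card) * J := mul_comm _ _
      _ ≤ _ := h4
  obtain ⟨f, hf1, hf2⟩ := (Finset.all_card_le_biUnion_card_iff_exists_injective t).1 hall
  set Φ : ℕ → ρ ⊕ κ := fun N => if h : N ∈ G then (f ⟨N, h⟩).1 else Sum.inl default with hΦ
  refine ⟨Φ, ?_, ?_⟩
  · intro N hN
    have h1 := hf2 ⟨N, hN⟩
    simp only [ht, Finset.mem_product, Finset.mem_univ, and_true, Finset.mem_union,
      Finset.mem_singleton] at h1
    have h2 : Φ N = (f ⟨N, hN⟩).1 := by simp only [hΦ, dif_pos hN]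
    rw [h2]
    rcases h1 with h1 | h1
    · exact Or.inl h1
    · right
      by_cases hk : k N ∈ S
      · rw [if_pos hk, Finset.mem_singleton] at h1
        exact ⟨h1, hk⟩
      · rw [if_neg hk] at h1
        simp at h1
  · intro z
    have h1 : J = (Finset.univ : Finset (Fin J)).card := by simp
    conv_rhs => rw [h1]
    have h3 : (G.filter (fun N => Φ N = z)).card = (G.filter (fun N => Φ N = z)).attach.card :=
      (Finset.card_attach).symm
    rw [h3]
    refine Finset.card_le_card_of_injOn
      (fun N => (f ⟨N.1, (Finset.mem_filter.1 N.2).1⟩).2) (fun _ _ => by simp) ?_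
    intro M _ N _ h
    simp only at h
    have hM := (Finset.mem_filter.1 M.2)
    have hN := (Finset.mem_filter.1 N.2)
    have e1 : (f ⟨M.1, hM.1⟩).1 = z := by
      have := hM.2
      simp only [hΦ, dif_pos hM.1] at this
      exact this
    have e2 : (f ⟨N.1, hN.1⟩).1 = z := by
      have := hN.2
      simp only [hΦ, dif_pos hN.1] at this
      exact this
    have e3 : f ⟨M.1, hM.1⟩ = f ⟨N.1, hN.1⟩ := Prod.ext (e1.trans e2.symm) h
    have e4 := hf1 e3
    apply Subtype.ext
    have e5 := congrArg Subtype.val e4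
    exact e5

variable {p : ℕ} [Fact p.Prime]

theorem core_ineq (w b V x y : ℤ) (hb : 0 ≤ b) (hbw : 4 * b ≤ w) (hx0 : 0 ≤ x) (hx : x ≤ w)
    (hy0 : 0 ≤ y) (hy : y ≤ V) (hV : V ≤ 2 * w) :
    0 ≤ x * (w - b) + y * (w - b - x) := by
  by_cases h : x ≤ w - b
  · have h1 : 0 ≤ x * (w - b) := mul_nonneg hx0 (by linarith)
    have h2 : 0 ≤ y * (w - b - x) := mul_nonneg hy0 (by linarith)
    linarith
  · rw [not_le] at h
    have h1 : y * (x - (w - b)) ≤ (2 * w) * b := by
      apply mul_le_mul (by linarith) (by linarith) (by linarith) (by linarith)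
    have h2 : (w - b) * (w - b) ≤ x * (w - b) :=
      mul_le_mul_of_nonneg_right h.le (by linarith)
    nlinarith [mul_nonneg (show 0 ≤ w by linarith) (show 0 ≤ w - 4 * b by linarith), sq_nonneg b]

section Cond

variable {α : Type*} [Fintype α] [DecidableEq α]

omit [Fintype α] in
theorem card_cell_le (G : Finset ℕ) (r k : ℕ → α)
    (huniq : ∀ M ∈ G, ∀ N ∈ G, r M = r N → k M = k N → M = N) (A : Finset α) (κ : α) :
    (G.filter (fun N => r N ∈ A ∧ k N = κ)).card ≤ A.card := by
  refine Finset.card_le_card_of_injOn r ?_ ?_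
  · intro N hN
    exact (Finset.mem_filter.1 hN).2.1
  · intro M hM N hN h
    rw [Finset.mem_coe, Finset.mem_filter] at hM hN
    exact huniq M hM.1 N hN.1 h (hM.2.2.trans hN.2.2.symm)

theorem cond_few (G : Finset ℕ) (r k : ℕ → α)
    (huniq : ∀ M ∈ G, ∀ N ∈ G, r M = r N → k M = k N → M = N) (J V : ℕ) (S : Finset α)
    (hS : S.card = V) (hV : Fintype.card α - V ≤ J) (A B : Finset α) (hAJ : A.card ≤ J) :
    (G.filter (fun N => r N ∈ A ∧ (k N ∈ B ∨ k N ∉ S))).card ≤ J * (A.card + B.card) := by
  have hQcard : (B ∪ (Finset.univ \ S)).card ≤ B.card + (Fintype.card α - V) := by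
    refine (Finset.card_union_le _ _).trans ?_
    rw [Finset.card_sdiff_of_subset (Finset.subset_univ S), Finset.card_univ, hS]
  have h1 : (G.filter (fun N => r N ∈ A ∧ (k N ∈ B ∨ k N ∉ S))).card ≤
      ∑ κ ∈ B ∪ (Finset.univ \ S), (G.filter (fun N => r N ∈ A ∧ k N = κ)).card := by
    refine (Finset.card_le_card ?_).trans Finset.card_biUnion_le
    intro N hN
    rw [Finset.mem_filter] at hN
    rw [Finset.mem_biUnion]
    refine ⟨k N, ?_, Finset.mem_filter.2 ⟨hN.1, hN.2.1, rfl⟩⟩
    rw [Finset.mem_union, Finset.mem_sdiff]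
    rcases hN.2.2 with h | h
    · exact Or.inl h
    · exact Or.inr ⟨Finset.mem_univ _, h⟩
  have h2 : ∑ κ ∈ B ∪ (Finset.univ \ S), (G.filter (fun N => r N ∈ A ∧ k N = κ)).card ≤
      (B ∪ (Finset.univ \ S)).card * A.card := by
    calc _ ≤ ∑ _κ ∈ B ∪ (Finset.univ \ S), A.card :=
          Finset.sum_le_sum (fun κ _ => card_cell_le G r k huniq A κ)
      _ = _ := by rw [Finset.sum_const, smul_eq_mul]
  have h3 : (B ∪ (Finset.univ \ S)).card * A.card ≤
      (B.card + (Fintype.card α - V)) * A.card := Nat.mul_le_mul_right _ hQcard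
  have h4 : (B.card + (Fintype.card α - V)) * A.card ≤ B.card * J + J * A.card := by
    rw [add_mul]
    exact Nat.add_le_add (Nat.mul_le_mul_left _ hAJ) (Nat.mul_le_mul_right _ hV)
  calc _ ≤ B.card * J + J * A.card := h1.trans (h2.trans (h3.trans h4))
    _ = J * (A.card + B.card) := by ring

theorem card_split (G : Finset ℕ) (r k : ℕ → α) (S A B : Finset α) :
    (G.filter (fun N => r N ∈ A ∧ (k N ∈ B ∨ k N ∉ S))).card +
      (G.filter (fun N => r N ∈ Finset.univ \ A)).card +
      (G.filter (fun N => r N ∈ A ∧ k N ∈ S \ B)).card ≤ G.card := by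
  have hd1 : Disjoint (G.filter (fun N => r N ∈ A ∧ (k N ∈ B ∨ k N ∉ S)))
      (G.filter (fun N => r N ∈ Finset.univ \ A)) := by
    rw [Finset.disjoint_left]
    intro N hN hN'
    simp only [Finset.mem_filter, Finset.mem_sdiff, Finset.mem_univ, true_and] at hN hN'
    exact hN'.2 hN.2.1
  have hd2 : Disjoint ((G.filter (fun N => r N ∈ A ∧ (k N ∈ B ∨ k N ∉ S))) ∪
      (G.filter (fun N => r N ∈ Finset.univ \ A)))
      (G.filter (fun N => r N ∈ A ∧ k N ∈ S \ B)) := by
    rw [Finset.disjoint_left]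
    intro N hN hN'
    simp only [Finset.mem_filter, Finset.mem_sdiff, Finset.mem_univ, true_and,
      Finset.mem_union] at hN hN'
    rcases hN with h | h
    · rcases h.2.2 with h' | h'
      · exact hN'.2.2.2 h'
      · exact h' hN'.2.2.1
    · exact h.2 hN'.2.1
  rw [← Finset.card_union_of_disjoint hd1, ← Finset.card_union_of_disjoint hd2]
  apply Finset.card_le_card
  intro N hN
  simp only [Finset.mem_filter, Finset.mem_union] at hN
  tauto

omit [Fintype α] in
theorem card_rows_low (G : Finset ℕ) (r : ℕ → α) (P b : ℕ)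
    (hr : ∀ c, P ≤ (G.filter (fun N => r N = c)).card + b) (A : Finset α) :
    A.card * P ≤ (G.filter (fun N => r N ∈ A)).card + A.card * b := by
  have h1 : (G.filter (fun N => r N ∈ A)).card =
      ∑ c ∈ A, (G.filter (fun N => r N = c)).card := by
    rw [Finset.card_eq_sum_card_fiberwise (s := G.filter (fun N => r N ∈ A)) (f := r) (t := A)
      (fun N hN => (Finset.mem_filter.1 hN).2)]
    refine Finset.sum_congr rfl ?_
    intro c hc
    congr 1
    ext N
    simp only [Finset.mem_filter]
    constructor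
    · rintro ⟨⟨h, _⟩, h'⟩
      exact ⟨h, h'⟩
    · rintro ⟨h, h'⟩
      exact ⟨⟨h, h' ▸ hc⟩, h'⟩
  rw [h1]
  calc A.card * P = ∑ _c ∈ A, P := by rw [Finset.sum_const, smul_eq_mul]
    _ ≤ ∑ c ∈ A, ((G.filter (fun N => r N = c)).card + b) :=
        Finset.sum_le_sum (fun c _ => hr c)
    _ = _ := by rw [Finset.sum_add_distrib, Finset.sum_const, smul_eq_mul]

theorem card_cols_low (G : Finset ℕ) (r k : ℕ → α)
    (huniq : ∀ M ∈ G, ∀ N ∈ G, r M = r N → k M = k N → M = N) (P b : ℕ)
    (hk : ∀ c, P ≤ (G.filter (fun N => k N = c)).card + b) (A B : Finset α) :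
    B.card * P ≤ (G.filter (fun N => r N ∈ A ∧ k N ∈ B)).card +
      B.card * (b + (Finset.univ \ A).card) := by
  have h1 : (G.filter (fun N => r N ∈ A ∧ k N ∈ B)).card =
      ∑ κ ∈ B, (G.filter (fun N => r N ∈ A ∧ k N = κ)).card := by
    rw [Finset.card_eq_sum_card_fiberwise (f := k) (t := B)
      (fun N hN => (Finset.mem_filter.1 hN).2.2)]
    refine Finset.sum_congr rfl ?_
    intro c hc
    congr 1
    ext N
    simp only [Finset.mem_filter]
    constructor
    · rintro ⟨⟨h, h2, _⟩, h'⟩
      exact ⟨h, h2, h'⟩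
    · rintro ⟨h, h2, h'⟩
      exact ⟨⟨h, h2, h' ▸ hc⟩, h'⟩
  rw [h1]
  calc B.card * P = ∑ _c ∈ B, P := by rw [Finset.sum_const, smul_eq_mul]
    _ ≤ ∑ κ ∈ B, ((G.filter (fun N => r N ∈ A ∧ k N = κ)).card +
          (b + (Finset.univ \ A).card)) := by
        refine Finset.sum_le_sum ?_
        intro κ _
        have h2 := hk κ
        have h3 : G.filter (fun N => k N = κ) ⊆
            G.filter (fun N => r N ∈ A ∧ k N = κ) ∪
            G.filter (fun N => r N ∈ Finset.univ \ A ∧ k N = κ) := by
          intro N hN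
          simp only [Finset.mem_filter, Finset.mem_union, Finset.mem_sdiff, Finset.mem_univ,
            true_and] at hN ⊢
          by_cases hNA : r N ∈ A
          · exact Or.inl ⟨hN.1, hNA, hN.2⟩
          · exact Or.inr ⟨hN.1, hNA, hN.2⟩
        have h4 := (Finset.card_le_card h3).trans (Finset.card_union_le _ _)
        have h5 := card_cell_le G r k huniq (Finset.univ \ A) κ
        omega
    _ = _ := by rw [Finset.sum_add_distrib, Finset.sum_const, smul_eq_mul]

theorem core_arith (p w J V b A A' B B' X0 X1 X2 : ℤ) (hb : 0 ≤ b)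
    (hbw : 4 * b ≤ w) (hA'0 : 0 ≤ A') (hA' : A' ≤ w) (hB'0 : 0 ≤ B') (hB' : B' ≤ V)
    (hV : V ≤ 2 * w) (e1 : A' * (w + J) ≤ X1 + A' * b)
    (e2 : B' * (w + J) ≤ X2 + B' * (b + A')) (e3 : X0 + X1 + X2 ≤ J * (p + V))
    (e4 : A' + A = p) (e5 : B' + B = V) : X0 ≤ J * (A + B) := by
  have hcore := core_ineq w b V A' B' hb hbw hA'0 hA' hB'0 hB' hV
  have h1 : J * (p + V) = J * (A + B) + J * A' + J * B' := by rw [← e4, ← e5]; ring
  have h2 : A' * (w + J) + B' * (w + J) - A' * b - B' * (b + A') =
      (A' * (w - b) + B' * (w - b - A')) + J * A' + J * B' := by ring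
  linarith

theorem cond_many (G : Finset ℕ) (r k : ℕ → α)
    (huniq : ∀ M ∈ G, ∀ N ∈ G, r M = r N → k M = k N → M = N) (p J V w b : ℕ)
    (S : Finset α) (hS : S.card = V) (hp : Fintype.card α = p) (hw : p = w + 1 + J)
    (hG : G.card = J * (p + V)) (hb : 4 * b ≤ w) (hV : V ≤ 2 * w)
    (hr : ∀ c, w + J ≤ (G.filter (fun N => r N = c)).card + b)
    (hk : ∀ c, w + J ≤ (G.filter (fun N => k N = c)).card + b)
    (A B : Finset α) (hBS : B ⊆ S) (hAJ : J < A.card) :
    (G.filter (fun N => r N ∈ A ∧ (k N ∈ B ∨ k N ∉ S))).card ≤ J * (A.card + B.card) := by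
  have hA'card : (Finset.univ \ A).card + A.card = p := by
    rw [Finset.card_sdiff_of_subset (Finset.subset_univ A), Finset.card_univ, hp]
    have := Finset.card_le_univ A
    rw [hp] at this
    omega
  have hB'card : (S \ B).card + B.card = V := by
    rw [Finset.card_sdiff_of_subset hBS, hS]
    have := Finset.card_le_card hBS
    omega
  have hsplit := card_split G r k S A B
  have e1 := card_rows_low G r (w + J) b hr (Finset.univ \ A)
  have e2 := card_cols_low G r k huniq (w + J) b hk A (S \ B)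
  rw [hG] at hsplit
  have h1 : (Finset.univ \ A).card ≤ w := by omega
  have h2 : (S \ B).card ≤ V := by omega
  have := core_arith (p : ℤ) w J V b A.card (Finset.univ \ A).card B.card (S \ B).card
    (G.filter (fun N => r N ∈ A ∧ (k N ∈ B ∨ k N ∉ S))).card
    (G.filter (fun N => r N ∈ Finset.univ \ A)).card
    (G.filter (fun N => r N ∈ A ∧ k N ∈ S \ B)).card
    (Int.natCast_nonneg _) (by exact_mod_cast hb) (Int.natCast_nonneg _)
    (by exact_mod_cast h1) (Int.natCast_nonneg _) (by exact_mod_cast h2)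
    (by exact_mod_cast hV) (by exact_mod_cast e1) (by exact_mod_cast e2)
    (by exact_mod_cast hsplit) (by exact_mod_cast hA'card) (by exact_mod_cast hB'card)
  exact_mod_cast this

end Cond

theorem engineB (J n b : ℕ) (hJ : 1 ≤ J) (hJp : J + 1 < p) (hp2 : p ≤ 2 * J)
    (hn : n ≤ md p) (hh : (md p - n) + J + p ≤ (p - J) ^ 2) (D : Finset ℕ)
    (hD : D.card ≤ J) (hDn : D ⊆ Finset.range n) (hdvd : J ∣ n - D.card)
    (g : (ZMod p)ˣ) (hg : orderOf g = p - 1) (a a' : ZMod p) (haa : a ≠ a') (ha : a ≠ 0)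
    (ha' : a' ≠ 0) (hb : 4 * b + J + 1 ≤ p)
    (hrow : ∀ c, ((Finset.range (md p)).filter
      (fun N => row g a N = c ∧ N ∉ Finset.range n \ D)).card ≤ b)
    (hcol : ∀ c, ((Finset.range (md p)).filter
      (fun N => row g a' N = c ∧ N ∉ Finset.range n \ D)).card ≤ b) :
    Part J (Finset.range n \ D) := by
  classical
  set G := Finset.range n \ D with hG
  have hGcard : G.card = n - D.card := by
    rw [hG, Finset.card_sdiff_of_subset hDn, Finset.card_range]
  have hDn' : D.card ≤ n := by
    have := Finset.card_le_card hDn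
    rwa [Finset.card_range] at this
  have hGmd : ∀ N ∈ G, N < md p := by
    intro N hN
    have := Finset.mem_range.1 (Finset.mem_sdiff.1 hN).1
    omega
  -- basic sizes
  obtain ⟨w, hw⟩ : ∃ w, p = w + 1 + J := ⟨p - 1 - J, by omega⟩
  have hmd : md p = (w + 1 + J) * (w + J) := by
    unfold md
    rw [hw]
    congr 1
    omega
  obtain ⟨v, hv⟩ := hdvd
  rw [← hGcard] at hv
  have hpJ : p - J = w + 1 := by omega
  rw [hpJ] at hh
  -- `v = p + V`
  have hvlow : p + (p - J) ≤ v := by
    have h1 : J * (p + (p - J)) ≤ J * v := by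
      rw [← hv, hGcard, hpJ]
      have h2 : md p ≤ n + (md p - n) := by omega
      have h3 : J * (p + (w + 1)) + (w + 1) ^ 2 = md p + p := by
        rw [hmd, hw]
        ring
      omega
    exact Nat.le_of_mul_le_mul_left h1 (by omega)
  obtain ⟨V, hV⟩ : ∃ V, v = p + V := ⟨v - p, by omega⟩
  have hV1 : p - J ≤ V := by omega
  have hJV : J * V ≤ p * w := by
    have h1 : J * p + J * V ≤ md p := by
      rw [← mul_add, ← hV, ← hv, hGcard]
      omega
    have h2 : md p = J * p + p * w := by
      rw [hmd, hw]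
      ring
    omega
  have hV2 : V ≤ 2 * w := by
    by_contra hlt
    rw [not_le] at hlt
    have h1 : J * (2 * w + 1) ≤ J * V := Nat.mul_le_mul_left _ hlt
    have h2 : p * w ≤ (2 * J) * w := Nat.mul_le_mul_right _ hp2
    nlinarith
  have hVp : V ≤ p := by
    by_contra hlt
    rw [not_le] at hlt
    have h1 : J * (p + 1) ≤ J * V := Nat.mul_le_mul_left _ hlt
    have h2 : p * w ≤ p * J := Nat.mul_le_mul_left _ (by omega)
    nlinarith
  obtain ⟨S, hSsub, hS⟩ : ∃ S ⊆ (Finset.univ : Finset (ZMod p)), S.card = V :=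
    Finset.exists_subset_card_eq (by rw [Finset.card_univ, ZMod.card]; exact hVp)
  -- lower bounds for the rows and the columns of `G`
  have hlow : ∀ (e : ZMod p), (∀ c, ((Finset.range (md p)).filter
      (fun N => row g e N = c ∧ N ∉ G)).card ≤ b) →
      ∀ c, p - 1 ≤ (G.filter (fun N => row g e N = c)).card + b := by
    intro e he c
    have h1 := card_row_md hg e c
    have h2 : (Finset.range (md p)).filter (fun N => row g e N = c) ⊆
        G.filter (fun N => row g e N = c) ∪
          (Finset.range (md p)).filter (fun N => row g e N = c ∧ N ∉ G) := by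
      intro N hN
      rw [Finset.mem_filter] at hN
      rw [Finset.mem_union, Finset.mem_filter, Finset.mem_filter]
      by_cases hNG : N ∈ G
      · exact Or.inl ⟨hNG, hN.2⟩
      · exact Or.inr ⟨hN.1, hN.2, hNG⟩
    have h3 := Finset.card_le_card h2
    have h4 := Finset.card_union_le (G.filter (fun N => row g e N = c))
      ((Finset.range (md p)).filter (fun N => row g e N = c ∧ N ∉ G))
    have h5 := he c
    omega
  have hrowlow := hlow a hrow
  have hcollow := hlow a' hcol
  -- uniqueness of the point with given row and column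
  have huniq : ∀ M ∈ G, ∀ N ∈ G, row g a M = row g a N → row g a' M = row g a' N → M = N := by
    intro M hM N hN h1 h2
    have := point_unique hg haa h1 h2
    rwa [Nat.mod_eq_of_lt (hGmd M hM), Nat.mod_eq_of_lt (hGmd N hN)] at this
  have hcond : ∀ A : Finset (ZMod p), ∀ B : Finset (ZMod p), B ⊆ S →
      (G.filter (fun N => row g a N ∈ A ∧ (row g a' N ∈ B ∨ row g a' N ∉ S))).card ≤
        J * (A.card + B.card) := by
    intro A B hBS
    have hp1 : p - 1 = w + J := by omega
    by_cases hAJ : A.card ≤ J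
    · exact cond_few G (row g a) (row g a') huniq J V S hS (by rw [ZMod.card]; omega) A B hAJ
    · exact cond_many G (row g a) (row g a') huniq p J V w b S hS (ZMod.card p) hw
        (by rw [hv, hV]) (by omega) hV2 (by rw [← hp1]; exact hrowlow)
        (by rw [← hp1]; exact hcollow) A B hBS (not_le.1 hAJ)
  obtain ⟨Φ, hΦ1, hΦ2⟩ := exists_assignment G (row g a) (row g a') S J
    (fun A B hB => by convert hcond A B hB)
  -- every class has exactly `J` elements
  set Cls : Finset (ZMod p ⊕ ZMod p) := (Finset.univ : Finset (ZMod p)).disjSum S with hCls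
  have hClscard : Cls.card = v := by
    rw [hCls, Finset.card_disjSum, Finset.card_univ, ZMod.card, hS, hV]
  have hmaps : ∀ N ∈ G, Φ N ∈ Cls := by
    intro N hN
    rw [hCls, Finset.mem_disjSum]
    rcases hΦ1 N hN with h | ⟨h, h'⟩
    · exact Or.inl ⟨_, Finset.mem_univ _, h.symm⟩
    · exact Or.inr ⟨_, h', h.symm⟩
  have hsum : ∑ z ∈ Cls, (G.filter (fun N => Φ N = z)).card = ∑ _z ∈ Cls, J := by
    rw [← Finset.card_eq_sum_card_fiberwise (f := Φ) (t := Cls) hmaps, Finset.sum_const,
      hClscard, hv, smul_eq_mul, mul_comm]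
  have hΦ3 : ∀ z, (G.filter (fun N => Φ N = z)).card ≤ J := by
    intro z
    convert hΦ2 z
  have hexact : ∀ z ∈ Cls, (G.filter (fun N => Φ N = z)).card = J :=
    (Finset.sum_eq_sum_iff_of_le (fun z _ => hΦ3 z)).1 hsum
  have hGeq : G = Cls.biUnion (fun z => G.filter (fun N => Φ N = z)) := by
    ext N
    rw [Finset.mem_biUnion]
    constructor
    · intro hN
      exact ⟨Φ N, hmaps N hN, Finset.mem_filter.2 ⟨hN, rfl⟩⟩
    · rintro ⟨z, _, hz⟩
      exact (Finset.mem_filter.1 hz).1
  rw [hGeq]
  apply Part.biUnion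
  · intro z hz
    apply Part.single (hexact z hz)
    have hinj : Set.InjOn (fun N => N % md p) (G.filter (fun N => Φ N = z) : Set ℕ) := by
      intro M hM N hN h
      rw [Finset.mem_coe, Finset.mem_filter] at hM hN
      simp only at h
      rwa [Nat.mod_eq_of_lt (hGmd M hM.1), Nat.mod_eq_of_lt (hGmd N hN.1)] at h
    rcases z with c | κ
    · apply golN_of_line hg ha c _ _ hinj
      intro N hN
      rw [Finset.mem_filter] at hN
      rcases hΦ1 N hN.1 with h | ⟨h, _⟩
      · rw [hN.2] at h
        exact (Sum.inl_injective h).symm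
      · rw [hN.2] at h
        exact absurd h (by simp)
    · apply golN_of_line hg ha' κ _ _ hinj
      intro N hN
      rw [Finset.mem_filter] at hN
      rcases hΦ1 N hN.1 with h | ⟨h, _⟩
      · rw [hN.2] at h
        exact absurd h (by simp)
      · rw [hN.2] at h
        exact (Sum.inr_injective h).symm
  · intro z _ z' _ hne
    rw [Finset.disjoint_left]
    intro N hN hN'
    rw [Finset.mem_filter] at hN hN'
    exact hne (hN.2.symm.trans hN'.2)

end Golomb15
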