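import Pool.Agent.Golomb15.Final

/-!
The bound of Erdos and Turan for the length of a Golomb ruler, and the asymptotics of `iota`.
-/

open Filter Topology

namespace Golomb15

open Classical in
theorem windows (A : Finset ℤ) (hA : IsGolomb A) (n u : ℕ)
    (hsub : A ⊆ Finset.Icc 1 (n : ℤ)) (hu : 0 < u) :
    A.card * A.card * u ≤ (n + u) * (A.card + u) := by
  set T : Finset ℤ := Finset.Ioc (-(u : ℤ)) n with hT
  have hTcard : T.card = n + u := by
    rw [hT, Int.card_Ioc]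
    omega
  set W : ℤ → Finset ℤ := fun t => A.filter (fun a => t ≤ a ∧ a < t + u) with hW
  -- first moment
  have h1 : ∑ t ∈ T, (W t).card = A.card * u := by
    have e1 : ∑ t ∈ T, (W t).card = ∑ a ∈ A, (T.filter (fun t => t ≤ a ∧ a < t + u)).card := by
      have := Finset.sum_card_bipartiteAbove_eq_sum_card_bipartiteBelow
        (s := T) (t := A) (fun t a => t ≤ a ∧ a < t + (u : ℤ))
      exact this
    rw [e1]
    have e2 : ∀ a ∈ A, (T.filter (fun t => t ≤ a ∧ a < t + u)).card = u := by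
      intro a ha
      have ha' := Finset.mem_Icc.1 (hsub ha)
      have : T.filter (fun t => t ≤ a ∧ a < t + u) = Finset.Ioc (a - u) a := by
        ext t
        simp only [hT, Finset.mem_filter, Finset.mem_Ioc]
        omega
      rw [this, Int.card_Ioc]
      omega
    rw [Finset.sum_congr rfl e2, Finset.sum_const, smul_eq_mul]
  -- second moment
  have h2 : ∑ t ∈ T, (W t).card * (W t).card ≤ A.card * u + u * u := by
    have e1 : ∀ t ∈ T, (W t).card * (W t).card = (W t).card + (W t).offDiag.card := by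
      intro t _
      rw [Finset.offDiag_card]
      have : (W t).card ≤ (W t).card * (W t).card := Nat.le_mul_self _
      omega
    rw [Finset.sum_congr rfl e1, Finset.sum_add_distrib, h1]
    apply Nat.add_le_add_left
    rw [← Finset.card_sigma]
    have e2 : u * u = ((Finset.range u) ×ˢ (Finset.range u)).card := by
      rw [Finset.card_product, Finset.card_range]
    rw [e2]
    refine Finset.card_le_card_of_injOn
      (fun x => ((x.2.1 - x.1).toNat, (x.2.2 - x.1).toNat)) ?_ ?_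
    · rintro ⟨t, a, b⟩ hx
      simp only [Finset.mem_coe, Finset.mem_sigma, Finset.mem_offDiag, hW,
        Finset.mem_filter] at hx
      simp only [Finset.mem_coe, Finset.mem_product, Finset.mem_range]
      omega
    · rintro ⟨t, a, b⟩ hx ⟨t', a', b'⟩ hx' he
      simp only [Finset.mem_coe, Finset.mem_sigma, Finset.mem_offDiag, hW,
        Finset.mem_filter] at hx hx'
      simp only [Prod.mk.injEq] at he
      obtain ⟨_, ⟨ha, ha1, ha2⟩, ⟨hb, hb1, hb2⟩, hab⟩ := hx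
      obtain ⟨_, ⟨ha', ha1', ha2'⟩, ⟨hb', hb1', hb2'⟩, hab'⟩ := hx'
      have e3 : a - t = a' - t' := by omega
      have e4 : b - t = b' - t' := by omega
      obtain ⟨e5, e6⟩ := hA a ha b hb a' ha' b' hb' hab (by omega)
      subst e5
      subst e6
      have e7 : t = t' := by omega
      rw [e7]
  have h3 := sq_sum_le_card_mul_sum_sq (s := T) (f := fun t => ((W t).card : ℤ))
  have h4 : ((A.card * u : ℕ) : ℤ) ^ 2 ≤ ((n + u : ℕ) : ℤ) * ((A.card * u + u * u : ℕ) : ℤ) := by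
    have e0 : ((A.card * u : ℕ) : ℤ) = ∑ t ∈ T, ((W t).card : ℤ) := by
      rw [← h1]
      push_cast
      rfl
    rw [hTcard] at h3
    have h5 : ∑ t ∈ T, ((W t).card : ℤ) ^ 2 ≤ ((A.card * u + u * u : ℕ) : ℤ) := by
      have : ∑ t ∈ T, ((W t).card : ℤ) ^ 2 = ((∑ t ∈ T, (W t).card * (W t).card : ℕ) : ℤ) := by
        push_cast
        exact Finset.sum_congr rfl (fun t _ => sq _)
      rw [this]
      exact_mod_cast h2
    rw [e0]
    exact h3.trans (mul_le_mul_of_nonneg_left h5 (Int.natCast_nonneg _))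
  have h6 : (A.card * u) ^ 2 ≤ (n + u) * (A.card * u + u * u) := by exact_mod_cast h4
  have h7 : u * (A.card * A.card * u) ≤ u * ((n + u) * (A.card + u)) := by
    calc u * (A.card * A.card * u) = (A.card * u) ^ 2 := by ring
      _ ≤ (n + u) * (A.card * u + u * u) := h6
      _ = u * ((n + u) * (A.card + u)) := by ring
  exact Nat.le_of_mul_le_mul_left h7 hu

/-- Erdos and Turan. -/
theorem golomb_lower (ε : ℝ) (hε : 0 < ε) : ∃ J₀ : ℕ, ∀ J ≥ J₀, ∀ (n : ℕ) (A : Finset ℤ),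
    IsGolomb A → A.card = J → A ⊆ Finset.Icc 1 (n : ℤ) → (1 - ε) * (J : ℝ) ^ 2 ≤ n := by
  set K := ⌈2 / ε⌉₊ with hK
  have hK1 : 2 / ε ≤ K := Nat.le_ceil _
  have hK0 : 0 < (K : ℝ) := lt_of_lt_of_le (by positivity) hK1
  have hK0' : 0 < K := by exact_mod_cast hK0
  refine ⟨⌈2 * K / ε⌉₊ + 1, ?_⟩
  intro J hJ n A hA hAJ hsub
  have hJ1 : 2 * K / ε ≤ J :=
    (Nat.le_ceil _).trans (by exact_mod_cast (Nat.le_succ _).trans hJ)
  have hJ0 : 0 < J := by omega
  have hJ0R : (0 : ℝ) < J := by exact_mod_cast hJ0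
  have h1 := windows A hA n (K * J) hsub (Nat.mul_pos hK0' hJ0)
  rw [hAJ] at h1
  have h2 : (J : ℝ) * J * (K * J) ≤ ((n : ℝ) + K * J) * (J + K * J) := by exact_mod_cast h1
  have h3 : (J : ℝ) * (K * (J : ℝ) ^ 2) ≤ J * (((n : ℝ) + K * J) * (1 + K)) := by
    calc (J : ℝ) * (K * (J : ℝ) ^ 2) = (J : ℝ) * J * (K * J) := by ring
      _ ≤ _ := h2
      _ = _ := by ring
  have h4 : K * (J : ℝ) ^ 2 ≤ ((n : ℝ) + K * J) * (1 + K) := le_of_mul_le_mul_left h3 hJ0R
  rw [div_le_iff₀ hε] at hK1 hJ1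
  -- `(1 - ε/2) (1 + K) ≤ K`
  have h5 : (1 - ε / 2) * (1 + K) ≤ K := by nlinarith
  have h6 : (1 + K) * ((1 - ε / 2) * (J : ℝ) ^ 2) ≤ (1 + K) * ((n : ℝ) + K * J) := by
    calc (1 + K) * ((1 - ε / 2) * (J : ℝ) ^ 2) = ((1 - ε / 2) * (1 + K)) * (J : ℝ) ^ 2 := by ring
      _ ≤ K * (J : ℝ) ^ 2 := mul_le_mul_of_nonneg_right h5 (sq_nonneg _)
      _ ≤ _ := h4
      _ = _ := by ring
  have h7 : (1 - ε / 2) * (J : ℝ) ^ 2 ≤ (n : ℝ) + K * J :=
    le_of_mul_le_mul_left h6 (by positivity)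
  have h8 : (K : ℝ) * J ≤ ε / 2 * (J : ℝ) ^ 2 := by nlinarith
  nlinarith

/-- `H I J = I J` forces `I ≥ (1 - ε) J`. -/
theorem necessary (ε : ℝ) (hε : 0 < ε) : ∃ J₀ : ℕ, ∀ J ≥ J₀, ∀ I : ℕ, 1 ≤ I →
    H I J = I * J → (1 - ε) * (J : ℝ) ≤ I := by
  obtain ⟨J₀, hJ₀⟩ := golomb_lower ε hε
  refine ⟨max J₀ 1, ?_⟩
  intro J hJ I hI hH
  have hJ1 : 1 ≤ J := (le_max_right _ _).trans hJ
  have hJ0R : (0 : ℝ) < J := by exact_mod_cast hJ1
  obtain ⟨F, hF⟩ := dgr_of_H_eq hI hJ1 hH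
  have hne : F.Nonempty := by
    rw [← Finset.card_pos, hF.card]
    exact hI
  obtain ⟨A, hA⟩ := hne
  obtain ⟨h1, h2, h3⟩ := hF.ruler A hA
  have h4 := hJ₀ J ((le_max_left _ _).trans hJ) (I * J) A h2 h1 h3
  push_cast at h4
  have h5 : (J : ℝ) * ((1 - ε) * J) ≤ J * I := by
    calc (J : ℝ) * ((1 - ε) * J) = (1 - ε) * (J : ℝ) ^ 2 := by ring
      _ ≤ _ := h4
      _ = _ := by ring
  exact le_of_mul_le_mul_left h5 hJ0R

/-- `H I J = I J` for all `I ≥ (1 + ε) J`. -/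
theorem sufficient (ε : ℝ) (hε : 0 < ε) : ∃ J₀ : ℕ, ∀ J ≥ J₀, ∀ I : ℕ,
    (1 + ε) * (J : ℝ) ≤ I → H I J = I * J := by
  obtain ⟨J₀, hJ1, hJ₀⟩ := qp_large ε hε
  refine ⟨J₀, ?_⟩
  intro J hJ I hI
  apply H_eq_of_dgr
  apply dgr_of_QP (hJ1.trans hJ)
  apply hJ₀ J hJ
  push_cast
  calc (1 + ε) * (J : ℝ) ^ 2 = ((1 + ε) * J) * J := by ring
    _ ≤ I * J := mul_le_mul_of_nonneg_right hI (Nat.cast_nonneg _)

theorem iota_tendsto : Tendsto (fun J : ℕ => (iota J : ℝ) / J) atTop (𝓝 1) := by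
  rw [Metric.tendsto_atTop]
  intro ε hε
  set δ := min (ε / 2) (1 / 2) with hδ
  have hδ0 : 0 < δ := lt_min (by positivity) (by norm_num)
  have hδε : δ ≤ ε / 2 := min_le_left _ _
  have hδ2 : δ ≤ 1 / 2 := min_le_right _ _
  obtain ⟨J₁, hJ₁⟩ := necessary δ hδ0
  obtain ⟨J₂, hJ₂⟩ := sufficient δ hδ0
  refine ⟨max (max J₁ J₂) (⌈4 / ε⌉₊ + 4), ?_⟩
  intro J hJ
  have h1 : J₁ ≤ J := ((le_max_left _ _).trans (le_max_left _ _)).trans hJ
  have h2 : J₂ ≤ J := ((le_max_right _ _).trans (le_max_left _ _)).trans hJ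
  have h3 : ⌈4 / ε⌉₊ + 4 ≤ J := (le_max_right _ _).trans hJ
  have h4 : (4 : ℝ) ≤ J := by
    have : 4 ≤ J := by omega
    exact_mod_cast this
  have h5 : 4 / ε ≤ J := (Nat.le_ceil _).trans (by
    have : ⌈4 / ε⌉₊ ≤ J := by omega
    exact_mod_cast this)
  have hJ0 : (0 : ℝ) < J := by linarith
  rw [div_le_iff₀ hε] at h5
  -- upper bound
  have hmem : ⌈(1 + δ) * (J : ℝ)⌉₊ ∈ {i | ∀ I, i ≤ I → H I J = I * J} := by
    intro I hI
    apply hJ₂ J h2
    exact (Nat.le_ceil _).trans (by exact_mod_cast hI)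
  have hup : iota J ≤ ⌈(1 + δ) * (J : ℝ)⌉₊ := Nat.sInf_le hmem
  have hupR : (iota J : ℝ) < (1 + δ) * J + 1 :=
    lt_of_le_of_lt (by exact_mod_cast hup) (Nat.ceil_lt_add_one (by positivity))
  -- lower bound
  have hinf : ∀ I, iota J ≤ I → H I J = I * J := Nat.sInf_mem ⟨_, hmem⟩
  have hlow : (1 - δ) * (J : ℝ) ≤ iota J := by
    by_contra hcon
    rw [not_le] at hcon
    have h6 := hJ₁ J h1 (max (iota J) 1) (le_max_right _ _) (hinf _ (le_max_left _ _))
    push_cast at h6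
    rcases le_max_iff.1 h6 with h7 | h7
    · linarith
    · nlinarith
  rw [Real.dist_eq, abs_lt]
  constructor
  · have : (1 - δ) ≤ (iota J : ℝ) / J := by
      rw [le_div_iff₀ hJ0]
      exact hlow
    linarith
  · have : (iota J : ℝ) / J < 1 + ε := by
      rw [div_lt_iff₀ hJ0]
      nlinarith
    linarith

end Golomb15
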