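import Pool.Agent.Golomb15.Basic

/-!
The Ruzsa plane: for a prime `p` and a generator `g` of the unit group, the integer `N`
corresponds to the point `(g ^ N, N)`; lines of nonzero slope give Golomb rulers.
-/

namespace Golomb15

variable {p : ℕ} [Fact p.Prime]

/-- The intercept of the line of slope `a` through the point of `N`. -/
def row (g : (ZMod p)ˣ) (a : ZMod p) (N : ℕ) : ZMod p :=
  (N : ZMod p) - a * ((g ^ N : (ZMod p)ˣ) : ZMod p)

theorem exists_gen (p : ℕ) [Fact p.Prime] :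
    ∃ g : (ZMod p)ˣ, orderOf g = p - 1 := by
  obtain ⟨g, hg⟩ := IsCyclic.exists_generator (α := (ZMod p)ˣ)
  refine ⟨g, ?_⟩
  rw [orderOf_eq_card_of_forall_mem_zpowers hg, Nat.card_eq_fintype_card, ZMod.card_units]

/-- The modulus. -/
def md (p : ℕ) : ℕ := p * (p - 1)

theorem coprime_p : Nat.Coprime p (p - 1) := by
  have hp : p.Prime := Fact.out
  have h2 := hp.two_le
  have : p = (p - 1) + 1 := by omega
  have h3 : Nat.Coprime ((p - 1) + 1) (p - 1) := by simp
  rwa [← this] at h3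

theorem md_pos : 0 < md p := by
  have hp : p.Prime := Fact.out
  have h2 := hp.two_le
  exact Nat.mul_pos (by omega) (by omega)

theorem pow_eq_iff {g : (ZMod p)ˣ} (hg : orderOf g = p - 1) (M N : ℕ) :
    g ^ M = g ^ N ↔ M ≡ N [MOD (p - 1)] := by
  rw [pow_eq_pow_iff_modEq, hg]

theorem mod_md_eq {g : (ZMod p)ˣ} (hg : orderOf g = p - 1) {M N : ℕ}
    (h1 : (M : ZMod p) = N) (h2 : g ^ M = g ^ N) : M % md p = N % md p := by
  have h3 : M ≡ N [MOD p] := (ZMod.natCast_eq_natCast_iff _ _ _).1 h1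
  have h4 := (pow_eq_iff hg M N).1 h2
  exact (Nat.modEq_and_modEq_iff_modEq_mul coprime_p).1 ⟨h3, h4⟩

theorem eq_of_row_of_pow {g : (ZMod p)ˣ} (hg : orderOf g = p - 1) (a : ZMod p) {M N : ℕ}
    (h1 : row g a M = row g a N) (h2 : g ^ M = g ^ N) : M % md p = N % md p := by
  refine mod_md_eq hg ?_ h2
  unfold row at h1
  rw [h2] at h1
  exact sub_left_injective h1

/-- Rows depend only on the residue modulo `p (p - 1)`. -/
theorem row_mod {g : (ZMod p)ˣ} (hg : orderOf g = p - 1) (a : ZMod p) (N : ℕ) :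
    row g a (N % md p) = row g a N := by
  have h1 : N % md p ≡ N [MOD (p * (p - 1))] := Nat.mod_modEq _ _
  obtain ⟨h2, h3⟩ := (Nat.modEq_and_modEq_iff_modEq_mul (coprime_p (p := p))).2 h1
  unfold row
  rw [(pow_eq_iff hg _ _).2 h3, (ZMod.natCast_eq_natCast_iff _ _ _).2 h2]

/-- A set on a line of nonzero slope, with distinct residues, is a Golomb ruler. -/
theorem golN_of_line {g : (ZMod p)ˣ} (hg : orderOf g = p - 1) {a : ZMod p} (ha : a ≠ 0)
    (c : ZMod p) (A : Finset ℕ) (hA : ∀ N ∈ A, row g a N = c)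
    (hinj : Set.InjOn (fun N => N % md p) (A : Set ℕ)) : GolN A := by
  intro n1 h1 n2 h2 n3 h3 n4 h4 hne he
  have e1 := hA n1 h1
  have e2 := hA n2 h2
  have e3 := hA n3 h3
  have e4 := hA n4 h4
  set x : ℕ → ZMod p := fun N => ((g ^ N : (ZMod p)ˣ) : ZMod p) with hx
  have hrow : ∀ N, row g a N = (N : ZMod p) - a * x N := fun N => rfl
  rw [hrow] at e1 e2 e3 e4
  have hy : (n1 : ZMod p) + n4 = n3 + n2 := by exact_mod_cast congrArg (Nat.cast (R := ZMod p)) he
  have hs : a * (x n1 + x n4) = a * (x n3 + x n2) := by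
    linear_combination hy - e1 - e4 + e3 + e2
  have hs' : x n1 + x n4 = x n3 + x n2 := mul_left_cancel₀ ha hs
  have hm : x n1 * x n4 = x n3 * x n2 := by
    simp only [hx]
    rw [← Units.val_mul, ← Units.val_mul, ← pow_add, ← pow_add, he]
  have hprod : (x n1 - x n3) * (x n1 - x n2) = 0 := by
    linear_combination (x n1) * hs' - hm
  have key : ∀ M ∈ A, ∀ N ∈ A, x M = x N → M = N := by
    intro M hM N hN hMN
    apply hinj hM hN
    refine eq_of_row_of_pow hg a ((hA M hM).trans (hA N hN).symm) ?_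
    exact Units.ext hMN
  rcases mul_eq_zero.1 hprod with h | h
  · have h13 : n1 = n3 := key n1 h1 n3 h3 (sub_eq_zero.1 h)
    refine ⟨h13, ?_⟩
    omega
  · exact absurd (key n1 h1 n2 h2 (sub_eq_zero.1 h)) hne

/-- Existence of the point with given row and column. -/
theorem exists_point {g : (ZMod p)ˣ} (hg : orderOf g = p - 1) {a a' : ZMod p} (haa : a ≠ a')
    {c k : ZMod p} (hck : c ≠ k) : ∃ N < md p, row g a N = c ∧ row g a' N = k := by
  have hp : p.Prime := Fact.out
  have hgen : ∀ u : (ZMod p)ˣ, ∃ n : ℕ, g ^ n = u := by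
    intro u
    have hz : u ∈ Subgroup.zpowers g := by
      have : Subgroup.zpowers g = ⊤ := by
        apply Subgroup.eq_top_of_card_eq
        rw [Nat.card_zpowers, hg, Nat.card_eq_fintype_card, ZMod.card_units]
      rw [this]
      exact Subgroup.mem_top u
    obtain ⟨n, hn⟩ := (mem_powers_iff_mem_zpowers).2 hz
    exact ⟨n, hn⟩
  have hne : (c - k) / (a' - a) ≠ 0 :=
    div_ne_zero (sub_ne_zero.2 hck) (sub_ne_zero.2 haa.symm)
  obtain ⟨n, hn⟩ := hgen (Units.mk0 _ hne)
  set y : ZMod p := c + a * ((c - k) / (a' - a)) with hy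
  obtain ⟨N, hN1, hN2⟩ := Nat.chineseRemainder (coprime_p (p := p)) y.val n
  have hNm : N % md p ≡ N [MOD (p * (p - 1))] := Nat.mod_modEq _ _
  obtain ⟨h2, h3⟩ := (Nat.modEq_and_modEq_iff_modEq_mul (coprime_p (p := p))).2 hNm
  refine ⟨N % md p, Nat.mod_lt _ md_pos, ?_⟩
  have hx : ((g ^ (N % md p) : (ZMod p)ˣ) : ZMod p) = (c - k) / (a' - a) := by
    rw [(pow_eq_iff hg _ n).2 (h3.trans hN2), hn]
    rfl
  have hyN : ((N % md p : ℕ) : ZMod p) = y := by
    rw [(ZMod.natCast_eq_natCast_iff _ _ _).2 (h2.trans hN1), ZMod.natCast_zmod_val]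
  have hd : a' - a ≠ 0 := sub_ne_zero.2 haa.symm
  constructor
  · unfold row
    rw [hx, hyN, hy]
    ring
  · unfold row
    rw [hx, hyN, hy]
    field_simp
    ring

/-- Uniqueness of the point with given row and column, modulo `p (p - 1)`. -/
theorem point_unique {g : (ZMod p)ˣ} (hg : orderOf g = p - 1) {a a' : ZMod p} (haa : a ≠ a')
    {M N : ℕ} (h1 : row g a M = row g a N) (h2 : row g a' M = row g a' N) :
    M % md p = N % md p := by
  refine eq_of_row_of_pow hg a h1 ?_
  apply Units.ext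
  have hd : a' - a ≠ 0 := sub_ne_zero.2 haa.symm
  unfold row at h1 h2
  apply mul_left_cancel₀ hd
  linear_combination h1 - h2

/-- The row and the column of a point are different. -/
theorem row_ne {g : (ZMod p)ˣ} {a a' : ZMod p} (haa : a ≠ a') (N : ℕ) :
    row g a N ≠ row g a' N := by
  intro h
  unfold row at h
  have hd : a' - a ≠ 0 := sub_ne_zero.2 haa.symm
  have : (a' - a) * ((g ^ N : (ZMod p)ˣ) : ZMod p) = 0 := by linear_combination h
  rcases mul_eq_zero.1 this with h' | h'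
  · exact hd h'
  · exact (Units.ne_zero _) h'

end Golomb15
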