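import Pool.Agent.Golomb15.Hall

/-!
Choice of two slopes whose lines contain few deleted points, and the number of points of
a line in a short interval.
-/

namespace Golomb15

variable {p : ℕ} [Fact p.Prime]

open Classical in
/-- The slopes with a line containing more than `L` points of `D`. -/
noncomputable def badSlopes (g : (ZMod p)ˣ) (D : Finset ℕ) (L : ℕ) : Finset (ZMod p) :=
  Finset.univ.filter (fun a => ∃ c, L < (D.filter (fun N => row g a N = c)).card)

theorem card_badSlopes {g : (ZMod p)ˣ} (hg : orderOf g = p - 1) (D : Finset ℕ)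
    (hD : ∀ N ∈ D, N < md p) (L : ℕ) :
    (badSlopes g D L).card * ((L + 1) * L) ≤ D.card * D.card := by
  classical
  set P : ZMod p → Finset (ℕ × ℕ) := fun a =>
    D.offDiag.filter (fun q => row g a q.1 = row g a q.2) with hP
  have hlow : ∀ a ∈ badSlopes g D L, (L + 1) * L ≤ (P a).card := by
    intro a ha
    simp only [badSlopes, Finset.mem_filter, Finset.mem_univ, true_and] at ha
    obtain ⟨c, hc⟩ := ha
    set X := D.filter (fun N => row g a N = c) with hX
    have hsub : X.offDiag ⊆ P a := by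
      rintro ⟨M, N⟩ h
      rw [Finset.mem_offDiag] at h
      simp only [hP, Finset.mem_filter, Finset.mem_offDiag]
      simp only [hX, Finset.mem_filter] at h
      exact ⟨⟨h.1.1, h.2.1.1, h.2.2⟩, h.1.2.trans h.2.1.2.symm⟩
    have h1 := Finset.card_le_card hsub
    rw [Finset.offDiag_card] at h1
    obtain ⟨k, hk⟩ : ∃ k, X.card = L + 1 + k := ⟨X.card - (L + 1), by omega⟩
    rw [hk] at h1
    have h2 : (L + 1 + k) * (L + 1 + k) - (L + 1 + k) = (L + 1 + k) * (L + k) := by
      have : (L + 1 + k) * (L + 1 + k) = (L + 1 + k) * (L + k) + (L + 1 + k) := by ring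
      omega
    rw [h2] at h1
    refine le_trans ?_ h1
    exact Nat.mul_le_mul (by omega) (by omega)
  have hdisj : ∀ a ∈ badSlopes g D L, ∀ a' ∈ badSlopes g D L, a ≠ a' →
      Disjoint (P a) (P a') := by
    intro a _ a' _ haa
    rw [Finset.disjoint_left]
    rintro ⟨M, N⟩ h h'
    simp only [hP, Finset.mem_filter, Finset.mem_offDiag] at h h'
    have := point_unique hg haa h.2 h'.2
    rw [Nat.mod_eq_of_lt (hD M h.1.1), Nat.mod_eq_of_lt (hD N h.1.2.1)] at this
    exact h.1.2.2 this
  calc (badSlopes g D L).card * ((L + 1) * L) = ∑ _a ∈ badSlopes g D L, (L + 1) * L := by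
        rw [Finset.sum_const, smul_eq_mul]
    _ ≤ ∑ a ∈ badSlopes g D L, (P a).card := Finset.sum_le_sum hlow
    _ = ((badSlopes g D L).biUnion P).card := (Finset.card_biUnion hdisj).symm
    _ ≤ (D ×ˢ D).card := by
        apply Finset.card_le_card
        intro q hq
        obtain ⟨a, _, ha⟩ := Finset.mem_biUnion.1 hq
        simp only [hP, Finset.mem_filter, Finset.mem_offDiag] at ha
        exact Finset.mem_product.2 ⟨ha.1.1, ha.1.2.1⟩
    _ = D.card * D.card := Finset.card_product _ _

theorem exists_slopes {g : (ZMod p)ˣ} (hg : orderOf g = p - 1) (D : Finset ℕ)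
    (hD : ∀ N ∈ D, N < md p) (L : ℕ) (hL : D.card * D.card < (p - 2) * ((L + 1) * L)) :
    ∃ a a' : ZMod p, a ≠ a' ∧ a ≠ 0 ∧ a' ≠ 0 ∧
      (∀ c, (D.filter (fun N => row g a N = c)).card ≤ L) ∧
      (∀ c, (D.filter (fun N => row g a' N = c)).card ≤ L) := by
  classical
  have h1 := card_badSlopes hg D hD L
  have h2 : (badSlopes g D L).card < p - 2 := by
    by_contra h
    rw [not_lt] at h
    have := Nat.mul_le_mul_right ((L + 1) * L) h
    omega
  have h3 : 1 < (Finset.univ \ (badSlopes g D L ∪ {0})).card := by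
    have h4 := Finset.card_union_le (badSlopes g D L) {0}
    rw [Finset.card_singleton] at h4
    rw [Finset.card_sdiff_of_subset (Finset.subset_univ _), Finset.card_univ, ZMod.card]
    omega
  obtain ⟨a, ha, a', ha', hne⟩ := Finset.one_lt_card.1 h3
  have key : ∀ e : ZMod p, e ∈ Finset.univ \ (badSlopes g D L ∪ {0}) → e ≠ 0 ∧
      ∀ c, (D.filter (fun N => row g e N = c)).card ≤ L := by
    intro e he
    rw [Finset.mem_sdiff, Finset.mem_union, not_or, Finset.mem_singleton] at he
    refine ⟨he.2.2, ?_⟩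
    intro c
    by_contra hc
    apply he.2.1
    simp only [badSlopes, Finset.mem_filter, Finset.mem_univ, true_and]
    refine ⟨c, ?_⟩
    rw [not_le] at hc
    convert hc
  exact ⟨a, a', hne, (key a ha).1, (key a' ha').1, (key a ha).2, (key a' ha').2⟩

/-- A Golomb ruler in an interval of length `h` has `k` marks with `k (k - 1) ≤ 2 h`. -/
theorem golomb_card (X : Finset ℕ) (hX : GolN X) (n h : ℕ)
    (hXn : ∀ N ∈ X, n ≤ N ∧ N < n + h) : X.card * X.card - X.card ≤ 2 * h := by
  classical
  rw [← Finset.offDiag_card]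
  have h1 : X.offDiag.card ≤ (Finset.Ioo (-(h : ℤ)) h).card := by
    refine Finset.card_le_card_of_injOn (fun q => (q.1 : ℤ) - q.2) ?_ ?_
    · rintro ⟨M, N⟩ hq
      rw [Finset.mem_coe, Finset.mem_offDiag] at hq
      rw [Finset.mem_coe, Finset.mem_Ioo]
      have h2 := hXn M hq.1
      have h3 := hXn N hq.2.1
      simp only
      omega
    · rintro ⟨M, N⟩ hq ⟨M', N'⟩ hq' he
      rw [Finset.mem_coe, Finset.mem_offDiag] at hq hq'
      simp only at he hq hq'
      have h5 : M + N' = M' + N := by omega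
      obtain ⟨h6, h7⟩ := hX M hq.1 N hq.2.1 M' hq'.1 N' hq'.2.1 hq.2.2 h5
      rw [h6, h7]
  refine h1.trans ?_
  rw [Int.card_Ioo]
  omega

theorem engineB' (J n L K : ℕ) (hJ : 1 ≤ J) (hJp : J + 1 < p) (hp2 : p ≤ 2 * J)
    (hn : n ≤ md p) (hh : (md p - n) + J + p ≤ (p - J) ^ 2) (D : Finset ℕ)
    (hD : D.card ≤ J) (hDn : D ⊆ Finset.range n) (hdvd : J ∣ n - D.card)
    (hL : J * J < (p - 2) * ((L + 1) * L)) (hK : 2 * (md p - n) < (K + 1) * K)
    (hb : 4 * (L + K) + J + 1 ≤ p) : Part J (Finset.range n \ D) := by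
  classical
  obtain ⟨g, hg⟩ := exists_gen p
  have hDmd : ∀ N ∈ D, N < md p := by
    intro N hN
    have := Finset.mem_range.1 (hDn hN)
    omega
  obtain ⟨a, a', haa, ha, ha', h1, h2⟩ := exists_slopes hg D hDmd L
    (lt_of_le_of_lt (Nat.mul_le_mul hD hD) hL)
  have key : ∀ e : ZMod p, e ≠ 0 → (∀ c, (D.filter (fun N => row g e N = c)).card ≤ L) →
      ∀ c, ((Finset.range (md p)).filter
        (fun N => row g e N = c ∧ N ∉ Finset.range n \ D)).card ≤ L + K := by
    intro e he hL' c
    set X := (Finset.Ico n (md p)).filter (fun N => row g e N = c) with hX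
    have hXK : X.card ≤ K := by
      have hXG : GolN X := by
        apply golN_of_line hg he c X
        · intro N hN
          exact (Finset.mem_filter.1 hN).2
        · intro M hM N hN h
          rw [Finset.mem_coe, hX, Finset.mem_filter, Finset.mem_Ico] at hM hN
          simp only at h
          rwa [Nat.mod_eq_of_lt hM.1.2, Nat.mod_eq_of_lt hN.1.2] at h
      have h3 := golomb_card X hXG n (md p - n) (by
        intro N hN
        rw [hX, Finset.mem_filter, Finset.mem_Ico] at hN
        omega)
      by_contra hlt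
      rw [not_le] at hlt
      obtain ⟨k, hk⟩ : ∃ k, X.card = K + 1 + k := ⟨X.card - (K + 1), by omega⟩
      rw [hk] at h3
      have h4 : (K + 1 + k) * (K + 1 + k) - (K + 1 + k) = (K + 1 + k) * (K + k) := by
        have : (K + 1 + k) * (K + 1 + k) = (K + 1 + k) * (K + k) + (K + 1 + k) := by ring
        omega
      rw [h4] at h3
      have h5 : (K + 1) * K ≤ (K + 1 + k) * (K + k) := Nat.mul_le_mul (by omega) (by omega)
      omega
    have hsub : (Finset.range (md p)).filter
        (fun N => row g e N = c ∧ N ∉ Finset.range n \ D) ⊆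
        D.filter (fun N => row g e N = c) ∪ X := by
      intro N hN
      rw [Finset.mem_filter, Finset.mem_range, Finset.mem_sdiff, Finset.mem_range] at hN
      rw [Finset.mem_union, hX, Finset.mem_filter, Finset.mem_filter, Finset.mem_Ico]
      by_cases hND : N ∈ D
      · exact Or.inl ⟨hND, hN.2.1⟩
      · right
        refine ⟨⟨?_, hN.1⟩, hN.2.1⟩
        by_contra hlt
        exact hN.2.2 ⟨by omega, hND⟩
    calc _ ≤ _ := Finset.card_le_card hsub
      _ ≤ _ := Finset.card_union_le _ _
      _ ≤ L + K := Nat.add_le_add (hL' c) hXK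
  exact engineB J n (L + K) hJ hJp hp2 hn hh D hD hDn hdvd g hg a a' haa ha ha' hb
    (key a ha h1) (key a' ha' h2)

end Golomb15
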